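import Mathlib

/-!
Definitions for MP_a48a54_an: interval exchange transformations, piecewise constant cocycles with
values in `SL(2,ℝ)`, non-elementary cocycles, parabolic and elliptic type.
-/

open MeasureTheory Matrix
open scoped MatrixGroups

namespace Pool.Agent.MP_a48a54_an

/-- Lebesgue measure on `[0,1)`, as a measure on the real line. -/
noncomputable def leb : Measure ℝ := volume.restrict (Set.Ico (0 : ℝ) 1)

/-- `T` is an interval exchange transformation on the `d` half-open intervals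
`I_j = [c j, c (j+1))`, `j = 0, …, d-1`, which cut `[0,1)`: it translates each `I_j`, and the images
`T I_j` again tile `[0,1)` (that is, `T` is a bijection of `[0,1)` onto itself). Values of `T`
outside `[0,1)` play no role. -/
structure IsIET (d : ℕ) (c : ℕ → ℝ) (T : ℝ → ℝ) : Prop where
  two_le : 2 ≤ d
  zero : c 0 = 0
  one : c d = 1
  lt : ∀ j < d, c j < c (j + 1)
  translate : ∀ j < d, ∃ t : ℝ, ∀ x ∈ Set.Ico (c j) (c (j + 1)), T x = x + t
  tile : Set.BijOn T (Set.Ico 0 1) (Set.Ico 0 1)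

/-- `ρ` is the piecewise constant cocycle with `ρ = M j` on `I_j = [c j, c (j+1))`. -/
def IsPiecewiseConst (d : ℕ) (c : ℕ → ℝ) (M : ℕ → SL(2, ℝ)) (ρ : ℝ → SL(2, ℝ)) : Prop :=
  ∀ j < d, ∀ x ∈ Set.Ico (c j) (c (j + 1)), ρ x = M j

/-- A set of matrices is Zariski dense in `SL(2,ℝ)`: every real polynomial in the four matrix
entries which vanishes on it vanishes on all of `SL(2,ℝ)`. -/
def ZariskiDense (Γ : Set SL(2, ℝ)) : Prop :=
  ∀ p : MvPolynomial (Fin 2 × Fin 2) ℝ,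
    (∀ γ ∈ Γ, MvPolynomial.eval (fun ij => (γ : Matrix (Fin 2) (Fin 2) ℝ) ij.1 ij.2) p = 0) →
    ∀ γ : SL(2, ℝ), MvPolynomial.eval (fun ij => (γ : Matrix (Fin 2) (Fin 2) ℝ) ij.1 ij.2) p = 0

/-- The cocycle with matrices `M 0, …, M (d-1)` is non-elementary: the subgroup generated by them
is Zariski dense in `SL(2,ℝ)`. -/
def NonElementary (d : ℕ) (M : ℕ → SL(2, ℝ)) : Prop :=
  ZariskiDense (Subgroup.closure {A | ∃ j < d, A = M j} : Set SL(2, ℝ))

/-- A map to `SL(2,ℝ)` is measurable when its entries are. -/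
def MeasurableSL (B : ℝ → SL(2, ℝ)) : Prop :=
  ∀ i j, Measurable fun x => (B x : Matrix (Fin 2) (Fin 2) ℝ) i j

/-- Parabolic type: `ρ` is measurably conjugate over `T` to an upper triangular cocycle
`x ↦ (v(x), m(x); 0, 1/v(x))` with `v > 0`, `log v` integrable and `∫ log v dμ = 0`. -/
def IsParabolicType (T : ℝ → ℝ) (ρ : ℝ → SL(2, ℝ)) : Prop :=
  ∃ (B : ℝ → SL(2, ℝ)) (v m : ℝ → ℝ), MeasurableSL B ∧ Measurable v ∧ Measurable m ∧
    (∀ x, 0 < v x) ∧ Integrable (fun x => Real.log (v x)) leb ∧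
    ∫ x, Real.log (v x) ∂leb = 0 ∧
    ∀ᵐ x ∂leb, ((B (T x) * ρ x * (B x)⁻¹ : SL(2, ℝ)) : Matrix (Fin 2) (Fin 2) ℝ)
      = !![v x, m x; 0, (v x)⁻¹]

/-- Elliptic type: `ρ` is measurably conjugate over `T` to a cocycle of rotations. -/
def IsEllipticType (T : ℝ → ℝ) (ρ : ℝ → SL(2, ℝ)) : Prop :=
  ∃ (B : ℝ → SL(2, ℝ)) (θ : ℝ → ℝ), MeasurableSL B ∧ Measurable θ ∧
    ∀ᵐ x ∂leb, ((B (T x) * ρ x * (B x)⁻¹ : SL(2, ℝ)) : Matrix (Fin 2) (Fin 2) ℝ)
      = !![Real.cos (θ x), -Real.sin (θ x); Real.sin (θ x), Real.cos (θ x)]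

/-- The exchange of the two intervals `[0, 1-α)` and `[1-α, 1)`: rotation by `α`. -/
noncomputable def rot (α x : ℝ) : ℝ := if x < 1 - α then x + α else x - (1 - α)

/-- The cut points `0, 1-α, 1` of `rot α`. -/
noncomputable def cuts (α : ℝ) (j : ℕ) : ℝ := if j = 0 then 0 else if j = 1 then 1 - α else 1

end Pool.Agent.MP_a48a54_an
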