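import Mathlib

/-!
Chains of insertions along an orbit of a rotation: the algebraic part of the elliptic example of
MP_a48a54_an.
-/

namespace Pool.Agent.MP_a48a54_an.Ell

variable {G : Type*} [Group G]

/-- the profile of one block of insertions: `1` on the first arc, `2` on the second arc -/
noncomputable def hh (x0 d x : ℝ) : ℕ :=
  if Int.fract (x - x0) < d then 1 else if Int.fract (x - x0) < 2 * d then 2 else 0

/-- the ordered product of the insertions `Z ^ i * K ^ h * Z ^ (-i)` met by `x` -/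
noncomputable def pr (K Z : G) (a x0 d : ℝ) : ℕ → ℝ → G
  | 0, _ => 1
  | i + 1, x => pr K Z a x0 d i x * (Z ^ i * K ^ (hh x0 d (x - ((i : ℝ) + 1) * a)) * (Z ^ i)⁻¹)

lemma pr_succ (K Z : G) (a x0 d : ℝ) (i : ℕ) (x : ℝ) :
    pr K Z a x0 d (i + 1) x =
      pr K Z a x0 d i x * (Z ^ i * K ^ (hh x0 d (x - ((i : ℝ) + 1) * a)) * (Z ^ i)⁻¹) := rfl

lemma pr_zero (K Z : G) (a x0 d : ℝ) (x : ℝ) : pr K Z a x0 d 0 x = 1 := rfl

lemma hh_ne_zero {x0 d x : ℝ} (hd : 0 < d) (h : hh x0 d x ≠ 0) : Int.fract (x - x0) < 2 * d := by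
  unfold hh at h
  split_ifs at h with h1 h2
  · linarith
  · exact h2
  · exact absurd rfl h

lemma hh_add_int (x0 d x : ℝ) (n : ℤ) : hh x0 d (x + n) = hh x0 d x := by
  have : Int.fract (x + n - x0) = Int.fract (x - x0) := by
    rw [show x + n - x0 = x - x0 + n by ring, Int.fract_add_intCast]
  unfold hh
  rw [this]

lemma pr_add_int (K Z : G) (a x0 d : ℝ) (i : ℕ) (x : ℝ) (n : ℤ) :
    pr K Z a x0 d i (x + n) = pr K Z a x0 d i x := by
  induction i with
  | zero => rfl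
  | succ i ih =>
    rw [pr_succ, pr_succ, ih]
    rw [show x + n - ((i : ℝ) + 1) * a = x - ((i : ℝ) + 1) * a + n by ring, hh_add_int]

lemma pr_shift (K Z : G) (a x0 d : ℝ) (i : ℕ) (x : ℝ) :
    pr K Z a x0 d (i + 1) (x + a) = K ^ (hh x0 d x) * (Z * pr K Z a x0 d i x * Z⁻¹) := by
  induction i with
  | zero =>
    rw [pr_succ, pr_zero, pr_zero]
    have : x + a - (((0 : ℕ) : ℝ) + 1) * a = x := by push_cast; ring
    rw [this]
    simp
  | succ i ih =>
    rw [pr_succ, ih, pr_succ]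
    have : x + a - (((i + 1 : ℕ) : ℝ) + 1) * a = x - ((i : ℝ) + 1) * a := by push_cast; ring
    rw [this, pow_succ' Z i]
    group

lemma pr_eq_one {K Z : G} {a x0 d x : ℝ} {i : ℕ}
    (h : ∀ j < i, hh x0 d (x - ((j : ℝ) + 1) * a) = 0) : pr K Z a x0 d i x = 1 := by
  induction i with
  | zero => rfl
  | succ i ih =>
    rw [pr_succ, ih (fun j hj => h j (by omega)), h i (by omega)]
    group

/-- if the product is not `1` then `x` is near the lattice of mesh `1/Q`. -/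
lemma fract_lt_of_pr_ne {K Z : G} {a x0 d x : ℝ} {P Q : ℕ} (hd : 0 < d)
    (hQ : (Q : ℝ) * a = P + d) (hQd : 3 * (Q : ℝ) * d < 1)
    (h : pr K Z a x0 d Q x ≠ 1) : Int.fract ((Q : ℝ) * (x - x0)) < 3 * Q * d := by
  by_contra hcon
  apply h
  apply pr_eq_one
  intro j hj
  by_contra hj0
  apply hcon
  have h1 := hh_ne_zero hd hj0
  have hjQ : (j : ℝ) + 1 ≤ Q := by exact_mod_cast hj
  have hj' : (0 : ℝ) ≤ j := Nat.cast_nonneg j
  set y := x - ((j : ℝ) + 1) * a - x0 with hy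
  have e1 : (⌊y⌋ : ℝ) + Int.fract y = y := Int.floor_add_fract y
  have hf0 := Int.fract_nonneg y
  have e2 : (Q : ℝ) * (x - x0) =
      (((j : ℝ) + 1) * d + Q * Int.fract y) + (((j + 1) * P + Q * ⌊y⌋ : ℤ) : ℝ) := by
    have : x - x0 = ((j : ℝ) + 1) * a + ⌊y⌋ + Int.fract y := by rw [add_assoc, e1, hy]; ring
    rw [this]
    push_cast
    linear_combination ((j : ℝ) + 1) * hQ
  rw [e2, Int.fract_add_intCast]
  have hQp : (0 : ℝ) < Q := by linarith
  have b1 : ((j : ℝ) + 1) * d + Q * Int.fract y < 3 * Q * d := by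
    nlinarith [mul_le_mul_of_nonneg_right hjQ hd.le, mul_lt_mul_of_pos_left h1 hQp]
  rw [Int.fract_eq_self.mpr ⟨by positivity, by linarith⟩]
  exact b1

/-- points just after the start of the block meet no insertion before time `Q`. -/
lemma pr_eq_one_of_mem {K Z : G} {a x0 d x : ℝ} {P Q' : ℕ} (hd : 0 < d)
    (hQ : ((Q' + 1 : ℕ) : ℝ) * a = P + d) (hQd : 5 * ((Q' + 1 : ℕ) : ℝ) * d < 1)
    (hco : Nat.Coprime (Q' + 1) P)
    (h1 : d ≤ Int.fract (x - x0)) (h2 : Int.fract (x - x0) < 3 * d) :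
    pr K Z a x0 d Q' x = 1 := by
  apply pr_eq_one
  intro j hj
  by_contra hj0
  have h3 := hh_ne_zero hd hj0
  set y := x - ((j : ℝ) + 1) * a - x0 with hy
  set z := x - x0 with hz
  have e1 : (⌊y⌋ : ℝ) + Int.fract y = y := Int.floor_add_fract y
  have e2 : (⌊z⌋ : ℝ) + Int.fract z = z := Int.floor_add_fract z
  have hf0 := Int.fract_nonneg y
  have hjQ : (j : ℝ) + 1 ≤ ((Q' + 1 : ℕ) : ℝ) := by
    push_cast
    have : (j : ℝ) < Q' := by exact_mod_cast hj
    linarith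
  have hj' : (0 : ℝ) ≤ j := Nat.cast_nonneg j
  set Q : ℕ := Q' + 1 with hQdef
  have hQp : (0 : ℝ) < (Q : ℝ) := by positivity
  have e3 : y = z - ((j : ℝ) + 1) * a := by rw [hy, hz]; ring
  have key : (((j + 1 : ℕ) * P - Q * (⌊z⌋ - ⌊y⌋) : ℤ) : ℝ)
      = Q * (Int.fract z - Int.fract y) - ((j : ℝ) + 1) * d := by
    push_cast
    have e4 : Int.fract z - Int.fract y = ((j : ℝ) + 1) * a - (⌊z⌋ - ⌊y⌋) := by linarith
    rw [e4]
    linear_combination (-((j : ℝ) + 1)) * hQ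
  have b1 : (Q : ℝ) * (Int.fract z - Int.fract y) - ((j : ℝ) + 1) * d < 1 := by
    nlinarith [mul_lt_mul_of_pos_left h2 hQp, mul_nonneg hQp.le hf0, mul_nonneg hj' hd.le,
      mul_pos hQp hd]
  have b2 : -1 < (Q : ℝ) * (Int.fract z - Int.fract y) - ((j : ℝ) + 1) * d := by
    nlinarith [mul_le_mul_of_nonneg_left h1 hQp.le, mul_lt_mul_of_pos_left h3 hQp,
      mul_le_mul_of_nonneg_right hjQ hd.le, mul_pos hQp hd]
  rw [← key] at b1 b2
  have b3 : ((j + 1 : ℕ) * P - Q * (⌊z⌋ - ⌊y⌋) : ℤ) < 1 := by exact_mod_cast b1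
  have b4 : -1 < ((j + 1 : ℕ) * P - Q * (⌊z⌋ - ⌊y⌋) : ℤ) := by exact_mod_cast b2
  have b5 : ((j + 1 : ℕ) : ℤ) * P = Q * (⌊z⌋ - ⌊y⌋) := by omega
  have b6 : (Q : ℤ) ∣ ((j + 1 : ℕ) : ℤ) * (P : ℤ) := ⟨_, b5⟩
  have b7 : Q ∣ (j + 1) * P := by exact_mod_cast b6
  have b8 : Q ∣ j + 1 := hco.dvd_of_dvd_mul_right b7
  have := Nat.le_of_dvd (by omega) b8
  omega

/-- the cohomological equation of one block -/
lemma pr_step {K Z : G} (hK : K ^ 3 = 1) {a x0 d : ℝ} {P Q' : ℕ} (hd : 0 < d)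
    (hZ : Z ^ (Q' + 1) = 1)
    (hQ : ((Q' + 1 : ℕ) : ℝ) * a = P + d) (hQd : 5 * ((Q' + 1 : ℕ) : ℝ) * d < 1)
    (hco : Nat.Coprime (Q' + 1) P) (x : ℝ) :
    pr K Z a x0 d (Q' + 1) (x + a) =
      (if Int.fract (x - x0) < 3 * d then K else 1) * (Z * pr K Z a x0 d (Q' + 1) x * Z⁻¹) := by
  have hd5 : 5 * d < 1 := by
    have : (1 : ℝ) ≤ ((Q' + 1 : ℕ) : ℝ) := by exact_mod_cast Nat.succ_le_succ (Nat.zero_le Q')
    nlinarith
  -- the last insertion
  have hlast : hh x0 d (x - ((Q' : ℝ) + 1) * a) = hh x0 d (x - d) := by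
    have : x - ((Q' : ℝ) + 1) * a = x - d + ((-(P : ℤ) : ℤ) : ℝ) := by
      push_cast at hQ ⊢
      linarith
    rw [this, hh_add_int]
  have hfr : Int.fract (x - d - x0) =
      if Int.fract (x - x0) < d then Int.fract (x - x0) - d + 1 else Int.fract (x - x0) - d := by
    have e2 : (⌊x - x0⌋ : ℝ) + Int.fract (x - x0) = x - x0 := Int.floor_add_fract _
    have h0 := Int.fract_nonneg (x - x0)
    have h1 := Int.fract_lt_one (x - x0)
    split_ifs with h
    · rw [Int.fract_eq_iff]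
      refine ⟨by linarith, by linarith, ⌊x - x0⌋ - 1, ?_⟩
      push_cast; linarith
    · rw [Int.fract_eq_iff]
      refine ⟨by linarith, by linarith, ⌊x - x0⌋, ?_⟩
      linarith
  have hsh := pr_shift K Z a x0 d Q' x
  have hsucc := pr_succ K Z a x0 d Q' x
  rw [hlast] at hsucc
  have hZ' : Z * Z ^ Q' = 1 := by rw [← pow_succ']; exact hZ
  have hconj : Z * pr K Z a x0 d (Q' + 1) x * Z⁻¹ =
      (Z * pr K Z a x0 d Q' x * Z⁻¹) * K ^ (hh x0 d (x - d)) := by
    rw [hsucc]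
    have e : Z * (pr K Z a x0 d Q' x * (Z ^ Q' * K ^ hh x0 d (x - d) * (Z ^ Q')⁻¹)) * Z⁻¹ =
        (Z * pr K Z a x0 d Q' x * Z⁻¹) * ((Z * Z ^ Q') * K ^ hh x0 d (x - d) * (Z * Z ^ Q')⁻¹) := by
      group
    rw [e, hZ']
    simp
  rw [hsh, hconj]
  have h0 := Int.fract_nonneg (x - x0)
  have h1 := Int.fract_lt_one (x - x0)
  by_cases c1 : Int.fract (x - x0) < d
  · have v1 : hh x0 d x = 1 := by unfold hh; rw [if_pos c1]
    have v2 : hh x0 d (x - d) = 0 := by
      unfold hh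
      rw [hfr, if_pos c1, if_neg (by linarith), if_neg (by linarith)]
    rw [v1, v2, if_pos (by linarith)]
    simp
  · by_cases c2 : Int.fract (x - x0) < 2 * d
    · have v1 : hh x0 d x = 2 := by unfold hh; rw [if_neg c1, if_pos c2]
      have v2 : hh x0 d (x - d) = 1 := by
        unfold hh
        rw [hfr, if_neg c1, if_pos (by linarith)]
      rw [v1, v2, if_pos (by linarith),
        pr_eq_one_of_mem hd hQ hQd hco (not_lt.mp c1) (by linarith)]
      simp [pow_two]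
    · by_cases c3 : Int.fract (x - x0) < 3 * d
      · have v1 : hh x0 d x = 0 := by unfold hh; rw [if_neg c1, if_neg c2]
        have v2 : hh x0 d (x - d) = 2 := by
          unfold hh
          rw [hfr, if_neg c1, if_neg (by linarith), if_pos (by linarith)]
        rw [v1, v2, if_pos c3,
          pr_eq_one_of_mem hd hQ hQd hco (not_lt.mp c1) c3]
        have : K * K ^ 2 = 1 := by rw [← hK]; group
        simp [this]
      · have v1 : hh x0 d x = 0 := by unfold hh; rw [if_neg c1, if_neg c2]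
        have v2 : hh x0 d (x - d) = 0 := by
          unfold hh
          rw [hfr, if_neg c1, if_neg (by linarith), if_neg (by linarith)]
        rw [v1, v2, if_neg c3]
        simp

end Pool.Agent.MP_a48a54_an.Ell
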