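import Mathlib
import Pool.Agent.MP_a48a54_an.Defs

/-!
The exchange of two intervals is an ergodic interval exchange.
-/

open MeasureTheory Set Function
open scoped MatrixGroups

namespace Pool.Agent.MP_a48a54_an

lemma cuts_zero (α : ℝ) : cuts α 0 = 0 := by simp [cuts]
lemma cuts_one (α : ℝ) : cuts α 1 = 1 - α := by simp [cuts]
lemma cuts_two (α : ℝ) : cuts α 2 = 1 := by simp [cuts]

lemma isIET_rot {α : ℝ} (h0 : 0 < α) (h1 : α < 1) : IsIET 2 (cuts α) (rot α) where
  two_le := le_rfl
  zero := cuts_zero α
  one := cuts_two α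
  lt := by
    intro j hj
    interval_cases j
    · rw [cuts_zero, zero_add, cuts_one]; linarith
    · rw [cuts_one, show 1 + 1 = 2 from rfl, cuts_two]; linarith
  translate := by
    intro j hj
    interval_cases j
    · refine ⟨α, fun x hx => ?_⟩
      rw [cuts_zero, zero_add, cuts_one] at hx
      unfold rot; rw [if_pos hx.2]
    · refine ⟨-(1 - α), fun x hx => ?_⟩
      rw [cuts_one, show 1 + 1 = 2 from rfl, cuts_two] at hx
      unfold rot; rw [if_neg (not_lt.mpr hx.1)]; ring
  tile := by
    refine ⟨?_, ?_, ?_⟩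
    · intro x hx
      unfold rot
      split_ifs with h
      · constructor <;> linarith [hx.1, hx.2]
      · push Not at h; constructor <;> linarith [hx.1, hx.2]
    · intro x hx y hy hxy
      simp only [rot] at hxy
      split_ifs at hxy with h h' h' <;> linarith [hx.1, hx.2, hy.1, hy.2]
    · intro y hy
      by_cases h : y < α
      · refine ⟨y + (1 - α), ⟨by linarith [hy.1], by linarith⟩, ?_⟩
        unfold rot; rw [if_neg (by linarith [hy.1])]; ring
      · push Not at h
        refine ⟨y - α, ⟨by linarith, by linarith [hy.2]⟩, ?_⟩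
        unfold rot; rw [if_pos (by linarith [hy.2])]; ring

lemma measurable_rot (α : ℝ) : Measurable (rot α) := by
  unfold rot
  exact Measurable.ite (measurableSet_lt measurable_id measurable_const)
    (measurable_id.add_const _) (measurable_id.sub_const _)

/-- the coordinate in `[0,1)` of a point of the circle -/
noncomputable def coord (y : AddCircle (1 : ℝ)) : ℝ := (AddCircle.equivIco (1 : ℝ) 0 y : ℝ)

lemma coord_mk (x : ℝ) : coord (x : AddCircle (1 : ℝ)) = Int.fract x := by
  have := AddCircle.coe_equivIco_mk_apply (p := (1 : ℝ)) x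
  unfold coord
  rw [div_one, mul_one] at this
  exact this

lemma measurable_coord : Measurable coord :=
  measurable_subtype_coe.comp (AddCircle.measurableEquivIco (1 : ℝ) 0).measurable

lemma measurePreserving_coord : MeasurePreserving coord (volume : Measure (AddCircle (1 : ℝ))) leb := by
  refine ⟨measurable_coord, ?_⟩
  have h1 := AddCircle.measurePreserving_mk (1 : ℝ) 0
  rw [zero_add] at h1
  rw [← h1.map_eq, Measure.map_map measurable_coord h1.measurable]
  have h2 : (coord ∘ fun x : ℝ => (x : AddCircle (1 : ℝ))) =ᵐ[volume.restrict (Ioc (0 : ℝ) 1)] id := by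
    have h3 : ∀ᵐ x ∂(volume : Measure ℝ), x ≠ 1 := by simp [ae_iff]
    filter_upwards [ae_restrict_mem measurableSet_Ioc, ae_restrict_of_ae h3] with x hx hx1
    simp only [comp_apply, coord_mk, id]
    rw [Int.fract_eq_self]
    exact ⟨hx.1.le, lt_of_le_of_ne hx.2 hx1⟩
  rw [Measure.map_congr h2, Measure.map_id]
  unfold leb
  exact Measure.restrict_congr_set Ico_ae_eq_Ioc.symm

lemma coord_mem (y : AddCircle (1 : ℝ)) : coord y ∈ Ico (0 : ℝ) 1 := by
  have := (AddCircle.equivIco (1 : ℝ) 0 y).2
  exact ⟨this.1, lt_of_lt_of_eq this.2 (zero_add 1)⟩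

lemma mk_coord (y : AddCircle (1 : ℝ)) : ((coord y : ℝ) : AddCircle (1 : ℝ)) = y :=
  AddCircle.coe_equivIco

lemma coord_semiconj {α : ℝ} (h0 : 0 < α) (h1 : α < 1) :
    Semiconj coord (fun y : AddCircle (1 : ℝ) => y + (α : ℝ)) (rot α) := by
  intro y
  have hy := coord_mem y
  conv_lhs => rw [← mk_coord y]
  show coord (((coord y : ℝ) : AddCircle (1 : ℝ)) + (α : ℝ)) = _
  rw [← AddCircle.coe_add, coord_mk]
  unfold rot
  split_ifs with h
  · rw [Int.fract_eq_self]
    constructor <;> linarith [hy.1, hy.2]
  · push Not at h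
    rw [Int.fract_eq_iff]
    refine ⟨by linarith, by linarith [hy.2], 1, by push_cast; ring⟩

lemma ergodic_rot {α : ℝ} (hα : Irrational α) (h0 : 0 < α) (h1 : α < 1) :
    Ergodic (rot α) leb := by
  have hE : Ergodic (fun y : AddCircle (1 : ℝ) => y + ((α : ℝ) : AddCircle (1 : ℝ))) volume := by
    rw [AddCircle.ergodic_add_right, ← AddCircle.denseRange_zsmul_iff]
    rw [AddCircle.denseRange_zsmul_coe_iff, div_one]
    exact hα
  exact measurePreserving_coord.ergodic_of_ergodic_semiconj hE (measurable_rot α)
    (coord_semiconj h0 h1)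

end Pool.Agent.MP_a48a54_an
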