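import Mathlib
import Pool.Agent.MP_a48a54_an.Defs
import Pool.Agent.MP_a48a54_an.Rotation

/-!
The symmetric exchange of three intervals, as a first return map of a rotation: it is an ergodic
interval exchange.
-/

open MeasureTheory Set Filter Topology Function
open scoped MatrixGroups ENNReal

namespace Pool.Agent.MP_a48a54_an.Ell

/-! ### Interval exchanges preserve Lebesgue measure -/

lemma cuts_mono {d : ℕ} {c : ℕ → ℝ} (h : ∀ j < d, c j < c (j + 1)) {i j : ℕ} (hij : i ≤ j)
    (hj : j ≤ d) : c i ≤ c j := by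
  induction j, hij using Nat.le_induction with
  | base => exact le_rfl
  | succ j hij ih => exact (ih (by omega)).trans (h j (by omega)).le

lemma iUnion_cuts {d : ℕ} {c : ℕ → ℝ} (h : ∀ j < d, c j < c (j + 1)) :
    ⋃ j ∈ Finset.range d, Ico (c j) (c (j + 1)) = Ico (c 0) (c d) := by
  induction d with
  | zero => simp
  | succ d ih =>
    rw [Finset.range_add_one, Finset.set_biUnion_insert, ih (fun j hj => h j (by omega)), union_comm]
    exact Ico_union_Ico_eq_Ico (cuts_mono h (Nat.zero_le d) (by omega)) (h d (by omega)).le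

lemma cuts_disjoint {d : ℕ} {c : ℕ → ℝ} (h : ∀ j < d, c j < c (j + 1)) {i j : ℕ} (hi : i < d)
    (hj : j < d) (hij : i ≠ j) : Disjoint (Ico (c i) (c (i + 1))) (Ico (c j) (c (j + 1))) := by
  rw [Set.disjoint_left]
  rintro x ⟨h1, h2⟩ ⟨h3, h4⟩
  rcases lt_or_gt_of_ne hij with hlt | hlt
  · have := cuts_mono h (show i + 1 ≤ j from hlt) hj.le
    linarith
  · have := cuts_mono h (show j + 1 ≤ i from hlt) hi.le
    linarith

theorem measurePreserving_of_isIET {d : ℕ} {c : ℕ → ℝ} {T : ℝ → ℝ} (h : IsIET d c T)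
    (hT : Measurable T) : MeasurePreserving T leb leb := by
  refine ⟨hT, ?_⟩
  ext A hA
  rw [Measure.map_apply hT hA]
  unfold leb
  rw [Measure.restrict_apply (hT hA), Measure.restrict_apply hA]
  choose! t ht using h.translate
  have hU : Ico (0 : ℝ) 1 = ⋃ j ∈ Finset.range d, Ico (c j) (c (j + 1)) := by
    rw [iUnion_cuts h.lt, h.zero, h.one]
  -- images
  have himg : ∀ j < d, T '' Ico (c j) (c (j + 1)) = Ico (c j + t j) (c (j + 1) + t j) := by
    intro j hj
    ext y
    constructor
    · rintro ⟨x, hx, rfl⟩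
      rw [ht j hj x hx]
      exact ⟨by linarith [hx.1], by linarith [hx.2]⟩
    · intro hy
      have hx : y - t j ∈ Ico (c j) (c (j + 1)) := ⟨by linarith [hy.1], by linarith [hy.2]⟩
      exact ⟨y - t j, hx, by rw [ht j hj _ hx]; ring⟩
  have hU2 : Ico (0 : ℝ) 1 = ⋃ j ∈ Finset.range d, Ico (c j + t j) (c (j + 1) + t j) := by
    have h1 := h.tile.image_eq
    conv_lhs at h1 => rw [hU, image_iUnion₂]
    rw [← h1]
    refine iUnion₂_congr fun j hj => himg j (Finset.mem_range.mp hj)
  have hsub : ∀ j < d, Ico (c j) (c (j + 1)) ⊆ Ico (0 : ℝ) 1 := by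
    intro j hj
    rw [hU]
    exact subset_iUnion₂_of_subset j (Finset.mem_range.mpr hj) subset_rfl
  have hdisj : ∀ i < d, ∀ j < d, i ≠ j →
      Disjoint (Ico (c i + t i) (c (i + 1) + t i)) (Ico (c j + t j) (c (j + 1) + t j)) := by
    intro i hi j hj hij
    rw [← himg i hi, ← himg j hj]
    refine disjoint_image_image fun x hx y hy hxy => ?_
    have hxy' := h.tile.injOn (hsub i hi hx) (hsub j hj hy) hxy
    rw [hxy'] at hx
    exact Set.disjoint_left.mp (cuts_disjoint h.lt hi hj hij) hx hy
  have e1 : T ⁻¹' A ∩ Ico 0 1 = ⋃ j ∈ Finset.range d, (T ⁻¹' A ∩ Ico (c j) (c (j + 1))) := by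
    rw [hU, inter_iUnion₂]
  have e2 : A ∩ Ico 0 1 = ⋃ j ∈ Finset.range d, (A ∩ Ico (c j + t j) (c (j + 1) + t j)) := by
    conv_lhs => rw [hU2]
    rw [inter_iUnion₂]
  rw [e1, e2, measure_biUnion_finset, measure_biUnion_finset]
  · refine Finset.sum_congr rfl fun j hj => ?_
    have hj' := Finset.mem_range.mp hj
    have e3 : T ⁻¹' A ∩ Ico (c j) (c (j + 1)) =
        (fun x => x + t j) ⁻¹' (A ∩ Ico (c j + t j) (c (j + 1) + t j)) := by
      ext x
      simp only [mem_inter_iff, mem_preimage, mem_Ico]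
      constructor
      · rintro ⟨h1, h2, h3⟩
        rw [ht j hj' x ⟨h2, h3⟩] at h1
        exact ⟨h1, by linarith, by linarith⟩
      · rintro ⟨h1, h2, h3⟩
        have h4 : x ∈ Ico (c j) (c (j + 1)) := ⟨by linarith, by linarith⟩
        exact ⟨by rw [ht j hj' x h4]; exact h1, h4.1, h4.2⟩
    rw [e3, measure_preimage_add_right]
  · intro i hi j hj hij
    exact (hdisj i (Finset.mem_range.mp hi) j (Finset.mem_range.mp hj) hij).mono
      inter_subset_right inter_subset_right
  · intro j _
    exact hA.inter measurableSet_Ico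
  · intro i hi j hj hij
    exact (cuts_disjoint h.lt (Finset.mem_range.mp hi) (Finset.mem_range.mp hj) hij).mono
      inter_subset_right inter_subset_right
  · intro j _
    exact (hT hA).inter measurableSet_Ico

/-- affine changes of variable and null sets -/
lemma ae_comp_affine {p : ℝ → Prop} (h : ∀ᵐ x : ℝ, p x) {a : ℝ} (ha : a ≠ 0) (b : ℝ) :
    ∀ᵐ y : ℝ, p (a * y + b) := by
  rw [ae_iff] at h ⊢
  have e : {y : ℝ | ¬ p (a * y + b)} = (fun y => a * y) ⁻¹' ((fun z => z + b) ⁻¹' {x | ¬ p x}) := rfl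
  rw [e, Real.volume_preimage_mul_left ha, measure_preimage_add_right, h, mul_zero]

/-! ### The symmetric exchange of three intervals -/

/-- the cut points `0, 1 - A, 1 - A + S, 1` -/
noncomputable def c3 (A S : ℝ) (j : ℕ) : ℝ :=
  if j = 0 then 0 else if j = 1 then 1 - A else if j = 2 then 1 - A + S else 1

/-- the translation lengths -/
noncomputable def t3 (A S : ℝ) (j : ℕ) : ℝ :=
  if j = 0 then A else if j = 1 then 2 * A - 1 - S else A - 1 - S

/-- the exchange of three intervals of lengths `1 - A`, `S`, `A - S` with the order reversed -/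
noncomputable def T3 (A S y : ℝ) : ℝ :=
  if y < 1 - A then y + A else if y < 1 - A + S then y + (2 * A - 1 - S) else y + (A - 1 - S)

lemma c3_zero (A S : ℝ) : c3 A S 0 = 0 := by simp [c3]
lemma c3_one (A S : ℝ) : c3 A S 1 = 1 - A := by simp [c3]
lemma c3_two (A S : ℝ) : c3 A S 2 = 1 - A + S := by simp [c3]
lemma c3_three (A S : ℝ) : c3 A S 3 = 1 := by simp [c3]

lemma T3_eq (A S : ℝ) (hS : 0 < S) {j : ℕ} (hj : j < 3) {x : ℝ}
    (hx : x ∈ Ico (c3 A S j) (c3 A S (j + 1))) : T3 A S x = x + t3 A S j := by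
  interval_cases j
  · rw [c3_zero, zero_add, c3_one] at hx
    unfold T3 t3
    rw [if_pos hx.2, if_pos rfl]
  · rw [c3_one, show 1 + 1 = 2 from rfl, c3_two] at hx
    unfold T3 t3
    rw [if_neg (not_lt.mpr hx.1), if_pos hx.2, if_neg (by norm_num), if_pos rfl]
  · rw [c3_two, show 2 + 1 = 3 from rfl, c3_three] at hx
    unfold T3 t3
    rw [if_neg (by linarith [hx.1]), if_neg (not_lt.mpr hx.1), if_neg (by norm_num),
      if_neg (by norm_num)]

lemma isIET_T3 {A S : ℝ} (hS : 0 < S) (hSA : S < A) (hA : A < 1) : IsIET 3 (c3 A S) (T3 A S) where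
  two_le := by norm_num
  zero := c3_zero A S
  one := c3_three A S
  lt := by
    intro j hj
    interval_cases j
    · rw [c3_zero, zero_add, c3_one]; linarith
    · rw [c3_one, show 1 + 1 = 2 from rfl, c3_two]; linarith
    · rw [c3_two, show 2 + 1 = 3 from rfl, c3_three]; linarith
  translate := fun j hj => ⟨t3 A S j, fun x hx => T3_eq A S hS hj hx⟩
  tile := by
    refine ⟨?_, ?_, ?_⟩
    · intro x hx
      unfold T3
      split_ifs with h1 h2 <;> constructor <;> linarith [hx.1, hx.2]
    · intro x hx y hy hxy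
      simp only [T3] at hxy
      split_ifs at hxy <;> linarith [hx.1, hx.2, hy.1, hy.2]
    · intro y hy
      by_cases h1 : y < A - S
      · refine ⟨y - (A - 1 - S), ⟨by linarith [hy.1], by linarith⟩, ?_⟩
        unfold T3
        rw [if_neg (by linarith [hy.1]), if_neg (by linarith [hy.1])]; ring
      · by_cases h2 : y < A
        · refine ⟨y - (2 * A - 1 - S), ⟨by linarith, by linarith⟩, ?_⟩
          unfold T3
          rw [if_neg (by linarith), if_pos (by linarith)]; ring
        · refine ⟨y - A, ⟨by linarith, by linarith [hy.2]⟩, ?_⟩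
          unfold T3
          rw [if_pos (by linarith [hy.2])]; ring

lemma measurable_T3 (A S : ℝ) : Measurable (T3 A S) := by
  unfold T3
  exact Measurable.ite (measurableSet_lt measurable_id measurable_const)
    (measurable_id.add_const _)
    (Measurable.ite (measurableSet_lt measurable_id measurable_const)
      (measurable_id.add_const _) (measurable_id.add_const _))

/-- the projection of the circle to the base of the tower, `L = 1 + S` -/
noncomputable def FF (A S v : ℝ) : ℝ :=
  if (1 + S) * v < 1 then (1 + S) * v else (1 + S) * v + (A - 1 - S)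

lemma measurable_FF (A S : ℝ) : Measurable (FF A S) := by
  unfold FF
  have h : Measurable fun v : ℝ => (1 + S) * v := measurable_id.const_mul _
  exact Measurable.ite (measurableSet_lt h measurable_const) h (h.add_const _)

lemma FF_rot {A S a v : ℝ} (hS : 0 < S) (hSA : S < A) (hA : A < 1) (ha : (1 + S) * a = A)
    (hv : v ∈ Ico (0 : ℝ) 1) :
    FF A S (rot a v) = if (1 + S) * v < 1 then T3 A S (FF A S v) else FF A S v := by
  have hL : 0 < 1 + S := by linarith
  have h0 : 0 ≤ (1 + S) * v := mul_nonneg hL.le hv.1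
  have h1 : (1 + S) * v < 1 + S := by nlinarith [hv.2]
  have hiff : v < 1 - a ↔ (1 + S) * v < 1 + S - A := by
    constructor
    · intro h; nlinarith
    · intro h; by_contra hc; push Not at hc; nlinarith
  have e1 : (1 + S) * (v + a) = (1 + S) * v + A := by rw [mul_add, ha]
  have e2 : (1 + S) * (v - (1 - a)) = (1 + S) * v - (1 + S - A) := by
    rw [mul_sub, mul_sub, ha, mul_one]
  set w := (1 + S) * v with hw
  by_cases hc : v < 1 - a
  · have hc' := hiff.mp hc
    unfold rot
    rw [if_pos hc]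
    unfold FF T3
    rw [e1, ← hw]
    split_ifs <;> linarith
  · have hc' : ¬ w < 1 + S - A := fun h => hc (hiff.mpr h)
    unfold rot
    rw [if_neg hc]
    unfold FF T3
    rw [e2, ← hw]
    split_ifs <;> linarith

/-- from the circle back to the base -/
lemma ae_base {A S : ℝ} (hS : 0 < S) {p : ℝ → Prop} (h : ∀ᵐ v ∂leb, p (FF A S v)) :
    ∀ᵐ y ∂leb, p y := by
  unfold leb at h ⊢
  rw [ae_restrict_iff' measurableSet_Ico] at h ⊢
  have hL : 0 < 1 + S := by linarith
  have h1 := ae_comp_affine h (inv_ne_zero hL.ne') 0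
  filter_upwards [h1] with y hy hy01
  rw [add_zero] at hy
  have e : (1 + S) * ((1 + S)⁻¹ * y) = y := by rw [← mul_assoc, mul_inv_cancel₀ hL.ne', one_mul]
  have h2 : (1 + S)⁻¹ * y ∈ Ico (0 : ℝ) 1 := by
    constructor
    · exact mul_nonneg (inv_nonneg.mpr hL.le) hy01.1
    · by_contra hc
      push Not at hc
      have := mul_le_mul_of_nonneg_left hc hL.le
      rw [e] at this
      linarith [hy01.2]
  have h3 := hy h2
  unfold FF at h3
  rw [e, if_pos hy01.2] at h3
  exact h3

theorem ergodic_T3 {A S a : ℝ} (hS : 0 < S) (hSA : S < A) (hA : A < 1) (ha : (1 + S) * a = A)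
    (hirr : Irrational a) (h0 : 0 < a) (h1 : a < 1) : Ergodic (T3 A S) leb := by
  have hmp := measurePreserving_of_isIET (isIET_T3 hS hSA hA) (measurable_T3 A S)
  refine ⟨hmp, ⟨?_⟩⟩
  intro s hs hinv
  have herg := ergodic_rot hirr h0 h1
  set s' := FF A S ⁻¹' s with hs'
  have hs'm : MeasurableSet s' := measurable_FF A S hs
  have hinv' : rot a ⁻¹' s' =ᵐ[leb] s' := by
    rw [eventuallyEq_set]
    unfold leb
    filter_upwards [ae_restrict_mem measurableSet_Ico] with v hv
    simp only [hs', mem_preimage]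
    rw [FF_rot hS hSA hA ha hv]
    split_ifs with h
    · have : T3 A S (FF A S v) ∈ s ↔ FF A S v ∈ T3 A S ⁻¹' s := Iff.rfl
      rw [this, hinv]
    · exact Iff.rfl
  rw [eventuallyConst_set]
  rcases herg.quasiErgodic.ae_empty_or_univ₀ hs'm.nullMeasurableSet hinv' with h | h
  · right
    refine ae_base (A := A) (p := fun y => y ∉ s) hS ?_
    filter_upwards [h.mem_iff] with v hv hvs
    exact (hv.mp hvs).elim
  · left
    refine ae_base (A := A) (p := fun y => y ∈ s) hS ?_
    filter_upwards [h.mem_iff] with v hv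
    exact hv.mpr (mem_univ v)

end Pool.Agent.MP_a48a54_an.Ell
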