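import Mathlib

/-!
A rapidly approximable rotation number, used for the elliptic example of MP_a48a54_an.
-/

open Finset Filter Topology

namespace Pool.Agent.MP_a48a54_an.Ell

/-- the denominators -/
def Qn (n : ℕ) : ℕ := 81 ^ (4 ^ n)

lemma Qn_zero : Qn 0 = 81 := by simp [Qn]

lemma Qn_succ (n : ℕ) : Qn (n + 1) = Qn n ^ 4 := by
  unfold Qn
  rw [← pow_mul, pow_succ]

lemma Qn_ge (n : ℕ) : 81 ≤ Qn n := by
  induction n with
  | zero => rw [Qn_zero]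
  | succ n ih =>
    rw [Qn_succ]
    calc 81 ≤ Qn n := ih
      _ ≤ Qn n ^ 4 := Nat.le_self_pow (by norm_num) _

lemma Qn_cast_ge (n : ℕ) : (81 : ℝ) ≤ (Qn n : ℝ) := by exact_mod_cast Qn_ge n

lemma Qn_cast_pos (n : ℕ) : (0 : ℝ) < (Qn n : ℝ) := by linarith [Qn_cast_ge n]

lemma Qn_cast_succ (n : ℕ) : (Qn (n + 1) : ℝ) = (Qn n : ℝ) ^ 4 := by
  rw [Qn_succ]; push_cast; ring

lemma Qn_cast_double (n : ℕ) : 2 * (Qn n : ℝ) ≤ (Qn (n + 1) : ℝ) := by
  rw [Qn_cast_succ]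
  have h := Qn_cast_ge n
  have h2 : (1 : ℝ) ≤ (Qn n : ℝ) ^ 2 := one_le_pow₀ (by linarith)
  nlinarith [mul_le_mul h2 h (by norm_num) (by positivity : (0:ℝ) ≤ (Qn n : ℝ) ^ 2),
    sq_nonneg (Qn n : ℝ)]

lemma Qn_cast_add (n i : ℕ) : (Qn n : ℝ) * 2 ^ i ≤ (Qn (n + i) : ℝ) := by
  induction i with
  | zero => simp
  | succ i ih =>
    calc (Qn n : ℝ) * 2 ^ (i + 1) = 2 * ((Qn n : ℝ) * 2 ^ i) := by ring
      _ ≤ 2 * (Qn (n + i) : ℝ) := by linarith
      _ ≤ _ := Qn_cast_double _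

lemma three_dvd_Qn (n : ℕ) : 3 ∣ Qn n := by
  unfold Qn
  exact dvd_pow (by norm_num) (by positivity)

/-- the numerators -/
def Pn : ℕ → ℕ
  | 0 => 1
  | n + 1 => Qn n ^ 3 * Pn n + 1

lemma coprime_Pn (n : ℕ) : Nat.Coprime (Qn n) (Pn n) := by
  have h1 : ∀ n, Nat.Coprime 3 (Pn n) := by
    intro n
    cases n with
    | zero => simp [Pn]
    | succ n =>
      have h3 : 3 ∣ Qn n ^ 3 * Pn n := Dvd.dvd.mul_right (dvd_pow (three_dvd_Qn n) (by norm_num)) _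
      obtain ⟨k, hk⟩ := h3
      unfold Pn
      rw [hk]
      simp
  have h2 : Qn n = 3 ^ (4 * 4 ^ n) := by
    unfold Qn
    rw [show (81 : ℕ) = 3 ^ 4 by norm_num, ← pow_mul]
  rw [h2]
  exact Nat.Coprime.pow_left _ (h1 n)

lemma inv_Qn_le (n i : ℕ) : 1 / (Qn (n + i) : ℝ) ≤ 1 / (Qn n : ℝ) * (1 / 2) ^ i := by
  have h := Qn_cast_add n i
  have hp := Qn_cast_pos n
  have e : 1 / (Qn n : ℝ) * (1 / 2) ^ i = 1 / ((Qn n : ℝ) * 2 ^ i) := by
    rw [one_div_pow]; field_simp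
  rw [e]
  exact one_div_le_one_div_of_le (by positivity) h

lemma summable_inv_Qn : Summable fun n => 1 / (Qn n : ℝ) := by
  refine Summable.of_nonneg_of_le (fun n => by positivity) (fun n => ?_)
    ((summable_geometric_two).mul_left (1 / (Qn 0 : ℝ)))
  have := inv_Qn_le 0 n
  rwa [zero_add] at this

/-- the rotation number -/
noncomputable def al : ℝ := ∑' n, 1 / (Qn n : ℝ)

/-- the approximation defects -/
noncomputable def de (n : ℕ) : ℝ := Qn n * al - Pn n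

lemma sum_inv_Qn (n : ℕ) : ∑ i ∈ range (n + 1), 1 / (Qn i : ℝ) = Pn n / Qn n := by
  induction n with
  | zero => simp [Pn]
  | succ n ih =>
    rw [sum_range_succ, ih]
    have hp := Qn_cast_pos n
    have e : (Pn (n + 1) : ℝ) = (Qn n : ℝ) ^ 3 * Pn n + 1 := by
      show (((Qn n ^ 3 * Pn n + 1 : ℕ)) : ℝ) = _
      push_cast; ring
    rw [e, Qn_cast_succ]
    field_simp

lemma al_eq (n : ℕ) : al = Pn n / Qn n + ∑' i, 1 / (Qn (n + 1 + i) : ℝ) := by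
  have h := summable_inv_Qn.sum_add_tsum_nat_add (n + 1)
  rw [sum_inv_Qn] at h
  unfold al
  rw [← h]
  congr 1
  refine tsum_congr fun i => ?_
  rw [add_comm]

lemma summable_tail (n : ℕ) : Summable fun i => 1 / (Qn (n + i) : ℝ) := by
  have := (summable_nat_add_iff n).mpr summable_inv_Qn
  refine this.congr fun i => ?_
  rw [add_comm]

lemma tail_pos (n : ℕ) : 0 < ∑' i, 1 / (Qn (n + i) : ℝ) :=
  (summable_tail n).tsum_pos (fun i => by positivity) 0 (by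
    have := Qn_cast_pos (n + 0)
    positivity)

lemma tail_le (n : ℕ) : ∑' i, 1 / (Qn (n + i) : ℝ) ≤ 2 / (Qn n : ℝ) := by
  calc ∑' i, 1 / (Qn (n + i) : ℝ) ≤ ∑' i : ℕ, 1 / (Qn n : ℝ) * (1 / 2) ^ i :=
        (summable_tail n).tsum_le_tsum (inv_Qn_le n) ((summable_geometric_two).mul_left _)
    _ = 2 / (Qn n : ℝ) := by
        rw [tsum_mul_left, tsum_geometric_two]; ring

lemma de_eq (n : ℕ) : de n = Qn n * ∑' i, 1 / (Qn (n + 1 + i) : ℝ) := by
  unfold de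
  have hp := Qn_cast_pos n
  conv_lhs => rw [al_eq n]
  field_simp
  ring

lemma de_pos (n : ℕ) : 0 < de n := by
  rw [de_eq]
  exact mul_pos (Qn_cast_pos n) (tail_pos _)

lemma de_le (n : ℕ) : de n ≤ 2 / (Qn n : ℝ) ^ 3 := by
  rw [de_eq]
  have hp := Qn_cast_pos n
  calc (Qn n : ℝ) * ∑' i, 1 / (Qn (n + 1 + i) : ℝ) ≤ Qn n * (2 / (Qn (n + 1) : ℝ)) :=
        mul_le_mul_of_nonneg_left (tail_le _) hp.le
    _ = 2 / (Qn n : ℝ) ^ 3 := by
        rw [Qn_cast_succ]; field_simp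

lemma Qn_mul_al (n : ℕ) : (Qn n : ℝ) * al = Pn n + de n := by unfold de; ring

lemma inv_cube_le (n i : ℕ) :
    6 / (Qn (n + i) : ℝ) ^ 3 ≤ 6 / (Qn n : ℝ) ^ 3 * (1 / 2) ^ i := by
  have h := Qn_cast_add n i
  have hp := Qn_cast_pos n
  have e : 6 / (Qn n : ℝ) ^ 3 * (1 / 2) ^ i = 6 / ((Qn n : ℝ) ^ 3 * 2 ^ i) := by
    rw [one_div_pow]; field_simp
  rw [e]
  refine div_le_div_of_nonneg_left (by norm_num) (by positivity) ?_
  have h2 : (1 : ℝ) ≤ 2 ^ i := one_le_pow₀ (by norm_num)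
  calc (Qn n : ℝ) ^ 3 * 2 ^ i ≤ (Qn n : ℝ) ^ 3 * (2 ^ i) ^ 3 := by
        refine mul_le_mul_of_nonneg_left ?_ (by positivity)
        calc (2 : ℝ) ^ i = 2 ^ i * 1 * 1 := by ring
          _ ≤ 2 ^ i * 2 ^ i * 2 ^ i := by gcongr
          _ = (2 ^ i) ^ 3 := by ring
    _ = ((Qn n : ℝ) * 2 ^ i) ^ 3 := by ring
    _ ≤ _ := pow_le_pow_left₀ (by positivity) h 3

lemma three_de_le (n i : ℕ) : 3 * de (n + i) ≤ 6 / (Qn n : ℝ) ^ 3 * (1 / 2) ^ i := by
  have h1 := de_le (n + i)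
  have h2 := inv_cube_le n i
  have e : 3 * (2 / (Qn (n + i) : ℝ) ^ 3) = 6 / (Qn (n + i) : ℝ) ^ 3 := by ring
  linarith

lemma summable_de : Summable fun n => 3 * de n := by
  refine Summable.of_nonneg_of_le (fun n => by linarith [de_pos n]) (fun n => ?_)
    ((summable_geometric_two).mul_left (6 / (Qn 0 : ℝ) ^ 3))
  have := three_de_le 0 n
  rwa [zero_add] at this

/-- the length of the short interval -/
noncomputable def ss : ℝ := ∑' n, 3 * de n

/-- the left end points -/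
noncomputable def Dn (n : ℕ) : ℝ := ∑ j ∈ range n, 3 * de j

lemma Dn_zero : Dn 0 = 0 := by simp [Dn]

lemma Dn_succ (n : ℕ) : Dn (n + 1) = Dn n + 3 * de n := by
  unfold Dn; rw [sum_range_succ]

lemma ss_sub_Dn (n : ℕ) : ss - Dn n = ∑' i, 3 * de (n + i) := by
  have h := summable_de.sum_add_tsum_nat_add n
  unfold ss Dn
  rw [← h]
  simp only [add_sub_cancel_left]
  refine tsum_congr fun i => ?_
  rw [add_comm]

lemma summable_de_tail (n : ℕ) : Summable fun i => 3 * de (n + i) := by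
  have := (summable_nat_add_iff n).mpr summable_de
  refine this.congr fun i => ?_
  rw [add_comm]

lemma Dn_lt_ss (n : ℕ) : Dn n < ss := by
  have h := ss_sub_Dn n
  have : 0 < ∑' i, 3 * de (n + i) :=
    (summable_de_tail n).tsum_pos (fun i => by linarith [de_pos (n + i)]) 0
      (by linarith [de_pos (n + 0)])
  linarith

lemma ss_sub_Dn_le (n : ℕ) : ss - Dn n ≤ 12 / (Qn n : ℝ) ^ 3 := by
  rw [ss_sub_Dn]
  calc ∑' i, 3 * de (n + i) ≤ ∑' i : ℕ, 6 / (Qn n : ℝ) ^ 3 * (1 / 2) ^ i :=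
        (summable_de_tail n).tsum_le_tsum (three_de_le n) ((summable_geometric_two).mul_left _)
    _ = 12 / (Qn n : ℝ) ^ 3 := by
        rw [tsum_mul_left, tsum_geometric_two]; ring

lemma Dn_mono : Monotone Dn := by
  refine monotone_nat_of_le_succ fun n => ?_
  rw [Dn_succ]; linarith [de_pos n]

lemma Dn_nonneg (n : ℕ) : 0 ≤ Dn n := by
  have := Dn_mono (Nat.zero_le n)
  rwa [Dn_zero] at this

lemma ss_pos : 0 < ss := by
  have := Dn_lt_ss 0
  rwa [Dn_zero] at this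

lemma tendsto_Dn : Tendsto Dn atTop (𝓝 ss) := summable_de.hasSum.tendsto_sum_nat

lemma al_gt : 1 / 81 < al := by
  have h := de_pos 0
  unfold de at h
  rw [Qn_zero] at h
  have : (Pn 0 : ℝ) = 1 := by simp [Pn]
  rw [this] at h
  push_cast at h
  linarith

lemma al_lt : al < 1 / 80 := by
  have h := de_le 0
  unfold de at h
  rw [Qn_zero] at h
  have : (Pn 0 : ℝ) = 1 := by simp [Pn]
  rw [this] at h
  push_cast at h
  norm_num at h
  linarith

lemma ss_lt : ss < 1 / 1000 := by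
  have h := ss_sub_Dn_le 0
  rw [Dn_zero, Qn_zero] at h
  push_cast at h
  norm_num at h
  linarith

/-- `Q_n (ss - D_n)` is small -/
lemma Qn_mul_tail (n : ℕ) : (Qn n : ℝ) * (ss - Dn n) < 1 / 100 := by
  have hp := Qn_cast_pos n
  have hg := Qn_cast_ge n
  have h1 : (Qn n : ℝ) * (ss - Dn n) ≤ Qn n * (12 / (Qn n : ℝ) ^ 3) :=
    mul_le_mul_of_nonneg_left (ss_sub_Dn_le n) hp.le
  have h2 : (Qn n : ℝ) * (12 / (Qn n : ℝ) ^ 3) = 12 / (Qn n : ℝ) ^ 2 := by field_simp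
  have h3 : 12 / (Qn n : ℝ) ^ 2 < 1 / 100 := by
    rw [div_lt_div_iff₀ (by positivity) (by norm_num)]
    nlinarith
  linarith

lemma Qn_mul_de (n : ℕ) : 3 * (Qn n : ℝ) * de n < 1 / 100 := by
  have h := Qn_mul_tail n
  have h1 := Dn_lt_ss (n + 1)
  rw [Dn_succ] at h1
  have hp := Qn_cast_pos n
  nlinarith

lemma three_Qn_de_le (n : ℕ) : 3 * (Qn n : ℝ) * de n ≤ (1 / 2) ^ n := by
  have hp := Qn_cast_pos n
  have hg := Qn_cast_ge n
  have h1 := de_le n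
  have h2 : 3 * (Qn n : ℝ) * de n ≤ 3 * (Qn n : ℝ) * (2 / (Qn n : ℝ) ^ 3) :=
    mul_le_mul_of_nonneg_left h1 (by positivity)
  have h3 : 3 * (Qn n : ℝ) * (2 / (Qn n : ℝ) ^ 3) = (6 / (Qn n : ℝ)) * (1 / (Qn n : ℝ)) := by
    field_simp; norm_num
  have h4 : 6 / (Qn n : ℝ) ≤ 1 := by rw [div_le_one hp]; linarith
  have h5 : 1 / (Qn n : ℝ) ≤ (1 / 2) ^ n := by
    have := inv_Qn_le 0 n
    rw [zero_add] at this
    refine this.trans ?_
    have h6 : 1 / (Qn 0 : ℝ) ≤ 1 := by rw [Qn_zero]; norm_num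
    have h7 : (0 : ℝ) ≤ (1 / 2) ^ n := by positivity
    nlinarith
  rw [h3] at h2
  refine h2.trans ?_
  have h8 : (0 : ℝ) ≤ 1 / (Qn n : ℝ) := by positivity
  nlinarith

lemma irrational_al : Irrational al := by
  rintro ⟨r, hr⟩
  have hb : (0 : ℝ) < (r.den : ℝ) := by exact_mod_cast r.den_pos
  have hra : (r.den : ℝ) * al = r.num := by
    rw [← hr]
    have := Rat.den_mul_eq_num r
    exact_mod_cast this
  obtain ⟨n, hn⟩ : ∃ n : ℕ, (r.den : ℝ) < 2 ^ n := pow_unbounded_of_one_lt _ (by norm_num)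
  have h1 : (r.den : ℝ) * de n < 1 := by
    have h2 := de_le n
    have h3 := Qn_cast_add 0 n
    rw [zero_add, Qn_zero] at h3
    push_cast at h3
    have hp := Qn_cast_pos n
    have hg := Qn_cast_ge n
    have h4 : (r.den : ℝ) < Qn n := by nlinarith
    have h5 : (r.den : ℝ) * de n ≤ (r.den : ℝ) * (2 / (Qn n : ℝ) ^ 3) :=
      mul_le_mul_of_nonneg_left h2 hb.le
    have h6 : (r.den : ℝ) * (2 / (Qn n : ℝ) ^ 3) < Qn n * (2 / (Qn n : ℝ) ^ 3) :=
      mul_lt_mul_of_pos_right h4 (by positivity)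
    have h7 : (Qn n : ℝ) * (2 / (Qn n : ℝ) ^ 3) = 2 / (Qn n : ℝ) ^ 2 := by field_simp
    have h8 : 2 / (Qn n : ℝ) ^ 2 < 1 := by
      rw [div_lt_one (by positivity)]; nlinarith
    linarith
  have h2 : 0 < (r.den : ℝ) * de n := mul_pos hb (de_pos n)
  have h3 : (r.den : ℝ) * de n = ((Qn n * r.num - r.den * Pn n : ℤ) : ℝ) := by
    unfold de
    push_cast
    rw [← hra]; ring
  rw [h3] at h1 h2
  have h4 : (Qn n * r.num - r.den * Pn n : ℤ) < 1 := by exact_mod_cast h1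
  have h5 : 0 < (Qn n * r.num - r.den * Pn n : ℤ) := by exact_mod_cast h2
  omega

end Pool.Agent.MP_a48a54_an.Ell
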