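import Mathlib
import Pool.Agent.MP_a48a54_an.EllNumbers
import Pool.Agent.MP_a48a54_an.EllChain

/-!
The infinite product of the blocks of insertions, for the elliptic example of MP_a48a54_an.
-/

open Filter Topology

namespace Pool.Agent.MP_a48a54_an.Ell

variable {G : Type*} [Group G]

/-- the `m`-th block -/
noncomputable def gm (K Z : G) (m : ℕ) (x : ℝ) : G := pr K Z al (Dn m) (de m) (Qn m) x

/-- the finite products of blocks -/
noncomputable def GG (K Z : G) : ℕ → ℝ → G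
  | 0, _ => 1
  | n + 1, x => GG K Z n x * gm K Z n x

lemma GG_succ (K Z : G) (n : ℕ) (x : ℝ) : GG K Z (n + 1) x = GG K Z n x * gm K Z n x := rfl

/-- the `m`-th piece of the short interval -/
def inE (m : ℕ) (x : ℝ) : Prop := Int.fract (x - Dn m) < 3 * de m

lemma gm_step {K Z : G} (hK : K ^ 3 = 1) (hZ : Z ^ 3 = 1) (m : ℕ) (x : ℝ) [Decidable (inE m x)] :
    gm K Z m (x + al) = (if inE m x then K else 1) * (Z * gm K Z m x * Z⁻¹) := by
  have hge := Qn_ge m
  obtain ⟨Q', hQ'⟩ : ∃ Q', Qn m = Q' + 1 := ⟨Qn m - 1, by omega⟩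
  have hZQ : Z ^ (Q' + 1) = 1 := by
    rw [← hQ']
    obtain ⟨k, hk⟩ := three_dvd_Qn m
    rw [hk, pow_mul, hZ, one_pow]
  have h1 := Qn_mul_al m
  have h2 := Qn_mul_de m
  have h3 := coprime_Pn m
  have hp := Qn_cast_pos m
  have h4 := de_pos m
  unfold gm
  rw [hQ'] at h1 h2 h3 hp ⊢
  have := pr_step (K := K) (Z := Z) hK (x0 := Dn m) h4 hZQ h1 (by nlinarith) h3 x
  rw [this]
  unfold inE
  congr

lemma fract_ge_of_inE {l m : ℕ} (hlm : l < m) {x : ℝ} (hx : inE m x) :
    3 * (Qn l : ℝ) * de l ≤ Int.fract ((Qn l : ℝ) * (x - Dn l)) := by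
  unfold inE at hx
  have e1 : (⌊x - Dn m⌋ : ℝ) + Int.fract (x - Dn m) = x - Dn m := Int.floor_add_fract _
  have h0 := Int.fract_nonneg (x - Dn m)
  set u := Int.fract (x - Dn m) with hu
  have e2 : (Qn l : ℝ) * (x - Dn l) = Qn l * (Dn m - Dn l + u) + ((Qn l * ⌊x - Dn m⌋ : ℤ) : ℝ) := by
    push_cast
    have : x - Dn l = Dn m - Dn l + (⌊x - Dn m⌋ + u) := by rw [e1]; ring
    rw [this]; ring
  have hp := Qn_cast_pos l
  have b1 : 3 * de l ≤ Dn m - Dn l := by
    have := Dn_mono (show l + 1 ≤ m from hlm)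
    rw [Dn_succ] at this; linarith
  have b2 : Dn m - Dn l + u < ss - Dn l := by
    have := Dn_lt_ss (m + 1)
    rw [Dn_succ] at this; linarith
  have b3 := Qn_mul_tail l
  have b4 : (Qn l : ℝ) * (Dn m - Dn l + u) < 1 / 100 :=
    lt_trans (mul_lt_mul_of_pos_left b2 hp) b3
  have b5 : 3 * (Qn l : ℝ) * de l ≤ (Qn l : ℝ) * (Dn m - Dn l + u) := by
    nlinarith [mul_le_mul_of_nonneg_left b1 hp.le, mul_nonneg hp.le h0]
  have b6 := de_pos l
  rw [e2, Int.fract_add_intCast, Int.fract_eq_self.mpr ⟨?_, by linarith⟩]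
  · exact b5
  · refine le_trans ?_ b5
    positivity

lemma fract_lt_of_inE {l : ℕ} {x : ℝ} (hx : inE l x) :
    Int.fract ((Qn l : ℝ) * (x - Dn l)) < 3 * (Qn l : ℝ) * de l := by
  unfold inE at hx
  have e1 : (⌊x - Dn l⌋ : ℝ) + Int.fract (x - Dn l) = x - Dn l := Int.floor_add_fract _
  have h0 := Int.fract_nonneg (x - Dn l)
  set u := Int.fract (x - Dn l) with hu
  have e2 : (Qn l : ℝ) * (x - Dn l) = Qn l * u + ((Qn l * ⌊x - Dn l⌋ : ℤ) : ℝ) := by
    push_cast
    linear_combination (-(Qn l : ℝ)) * e1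
  have hp := Qn_cast_pos l
  have b2 := Qn_mul_de l
  have b1 : (Qn l : ℝ) * u < 3 * Qn l * de l := by nlinarith
  rw [e2, Int.fract_add_intCast, Int.fract_eq_self.mpr ⟨by positivity, by linarith⟩]
  exact b1

lemma inE_unique {l m : ℕ} {x : ℝ} (hl : inE l x) (hm : inE m x) : l = m := by
  rcases lt_trichotomy l m with h | h | h
  · exact absurd (fract_lt_of_inE hl) (not_lt.mpr (fract_ge_of_inE h hm))
  · exact h
  · exact absurd (fract_lt_of_inE hm) (not_lt.mpr (fract_ge_of_inE h hl))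

lemma fract_lt_of_gm_ne {K Z : G} {m : ℕ} {x : ℝ} (h : gm K Z m x ≠ 1) :
    Int.fract ((Qn m : ℝ) * (x - Dn m)) < 3 * (Qn m : ℝ) * de m :=
  fract_lt_of_pr_ne (de_pos m) (Qn_mul_al m) (by linarith [Qn_mul_de m]) h

lemma gm_eq_one_of_inE {K Z : G} {l m : ℕ} (hlm : l < m) {x : ℝ} (hx : inE m x) :
    gm K Z l x = 1 := by
  by_contra h
  exact absurd (fract_lt_of_gm_ne h) (not_lt.mpr (fract_ge_of_inE hlm hx))

lemma GG_eq_one_of_inE {K Z : G} {n m : ℕ} (hnm : n ≤ m) {x : ℝ} (hx : inE m x) :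
    GG K Z n x = 1 := by
  induction n with
  | zero => rfl
  | succ n ih => rw [GG_succ, ih (by omega), gm_eq_one_of_inE (by omega) hx, one_mul]

open Classical in
lemma GG_step {K Z : G} (hK : K ^ 3 = 1) (hZ : Z ^ 3 = 1) (n : ℕ) (x : ℝ) :
    GG K Z n (x + al) = (if ∃ m < n, inE m x then K else 1) * (Z * GG K Z n x * Z⁻¹) := by
  induction n with
  | zero => simp [GG]
  | succ n ih =>
    rw [GG_succ, ih, gm_step hK hZ, GG_succ]
    by_cases hE : inE n x
    · have h1 : ¬ ∃ m < n, inE m x := by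
        rintro ⟨m, hm, hmx⟩
        have := inE_unique hmx hE
        omega
      have h2 : ∃ m < n + 1, inE m x := ⟨n, by omega, hE⟩
      rw [if_pos hE, if_neg h1, if_pos h2, GG_eq_one_of_inE le_rfl hE]
      group
    · have h3 : (∃ m < n + 1, inE m x) ↔ ∃ m < n, inE m x := by
        constructor
        · rintro ⟨m, hm, hmx⟩
          refine ⟨m, ?_, hmx⟩
          rcases Nat.lt_succ_iff_lt_or_eq.mp hm with h | h
          · exact h
          · rw [h] at hmx; exact absurd hmx hE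
        · rintro ⟨m, hm, hmx⟩
          exact ⟨m, by omega, hmx⟩
      simp only [h3]
      rw [if_neg hE]
      group

lemma exists_inE_iff (x : ℝ) : (∃ m, inE m x) ↔ Int.fract x < ss := by
  have hss := ss_lt
  constructor
  · rintro ⟨m, hm⟩
    unfold inE at hm
    have e1 : (⌊x - Dn m⌋ : ℝ) + Int.fract (x - Dn m) = x - Dn m := Int.floor_add_fract _
    have h0 := Int.fract_nonneg (x - Dn m)
    have h1 := Dn_lt_ss (m + 1)
    rw [Dn_succ] at h1
    have h2 := Dn_nonneg m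
    have : Int.fract x = Dn m + Int.fract (x - Dn m) := by
      rw [Int.fract_eq_iff]
      exact ⟨by linarith, by linarith, ⌊x - Dn m⌋, by linarith⟩
    rw [this]; linarith
  · intro hx
    have h1 : ∃ n, Int.fract x < Dn n := (tendsto_Dn.eventually (lt_mem_nhds hx)).exists
    classical
    have h2 := Nat.find_spec h1
    set n := Nat.find h1 with hn
    have h3 := Int.fract_nonneg x
    have hn0 : n ≠ 0 := by
      intro h
      rw [h, Dn_zero] at h2
      linarith
    obtain ⟨m, hm⟩ := Nat.exists_eq_succ_of_ne_zero hn0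
    have h4 : Dn m ≤ Int.fract x := by
      have := Nat.find_min h1 (m := m) (by omega)
      exact not_lt.mp this
    refine ⟨m, ?_⟩
    unfold inE
    rw [hm, Nat.succ_eq_add_one, Dn_succ] at h2
    have h5 := Dn_nonneg m
    have h6 := Dn_lt_ss (m + 1)
    rw [Dn_succ] at h6
    have e2 : (⌊x⌋ : ℝ) + Int.fract x = x := Int.floor_add_fract _
    have : Int.fract (x - Dn m) = Int.fract x - Dn m := by
      rw [Int.fract_eq_iff]
      exact ⟨by linarith, by linarith [Int.fract_lt_one x], ⌊x⌋, by linarith⟩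
    rw [this]; linarith

/-- the product stabilises -/
def Good (K Z : G) (x : ℝ) : Prop := ∃ N, ∀ m ≥ N, gm K Z m x = 1

lemma Good.add_al {K Z : G} (hK : K ^ 3 = 1) (hZ : Z ^ 3 = 1) {x : ℝ} (h : Good K Z x) :
    Good K Z (x + al) := by
  classical
  obtain ⟨N, hN⟩ := h
  have h1 : ∃ M, ∀ m ≥ M, ¬ inE m x := by
    by_cases h : ∃ m, inE m x
    · obtain ⟨m0, hm0⟩ := h
      exact ⟨m0 + 1, fun m hm hmx => by have := inE_unique hmx hm0; omega⟩
    · push Not at h
      exact ⟨0, fun m _ => h m⟩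
  obtain ⟨M, hM⟩ := h1
  refine ⟨max N M, fun m hm => ?_⟩
  rw [gm_step hK hZ, if_neg (hM m (le_trans (le_max_right _ _) hm)),
    hN m (le_trans (le_max_left _ _) hm)]
  group

open Classical in
/-- the infinite product -/
noncomputable def Gl (K Z : G) (x : ℝ) : G :=
  if h : Good K Z x then GG K Z (Nat.find h) x else 1

lemma GG_const {K Z : G} {x : ℝ} {N : ℕ} (h : ∀ m ≥ N, gm K Z m x = 1) {n : ℕ} (hn : N ≤ n) :
    GG K Z n x = GG K Z N x := by
  induction n, hn using Nat.le_induction with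
  | base => rfl
  | succ n hn ih => rw [GG_succ, ih, h n hn, mul_one]

lemma GG_eq_Gl {K Z : G} {x : ℝ} {N : ℕ} (h : ∀ m ≥ N, gm K Z m x = 1) {n : ℕ} (hn : N ≤ n) :
    GG K Z n x = Gl K Z x := by
  classical
  have hG : Good K Z x := ⟨N, h⟩
  unfold Gl
  rw [dif_pos hG]
  have h1 := Nat.find_spec hG
  have h2 : Nat.find hG ≤ N := Nat.find_min' hG h
  exact GG_const h1 (h2.trans hn)

open Classical in
lemma Gl_step {K Z : G} (hK : K ^ 3 = 1) (hZ : Z ^ 3 = 1) {x : ℝ} (h : Good K Z x) :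
    Gl K Z (x + al) = (if Int.fract x < ss then K else 1) * (Z * Gl K Z x * Z⁻¹) := by
  have h2 := h.add_al hK hZ
  obtain ⟨N, hN⟩ := h
  obtain ⟨N', hN'⟩ := h2
  by_cases hx : Int.fract x < ss
  · obtain ⟨m, hm⟩ := (exists_inE_iff x).mpr hx
    set n := max (max N N') (m + 1) with hn
    have e1 : GG K Z n (x + al) = Gl K Z (x + al) := GG_eq_Gl hN' (by omega)
    have e2 : GG K Z n x = Gl K Z x := GG_eq_Gl hN (by omega)
    rw [← e1, ← e2, GG_step hK hZ, if_pos ⟨m, by omega, hm⟩, if_pos hx]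
  · have hm : ¬ ∃ m, inE m x := fun hm => hx ((exists_inE_iff x).mp hm)
    set n := max N N' with hn
    have e1 : GG K Z n (x + al) = Gl K Z (x + al) := GG_eq_Gl hN' (by omega)
    have e2 : GG K Z n x = Gl K Z x := GG_eq_Gl hN (by omega)
    rw [← e1, ← e2, GG_step hK hZ, if_neg (fun ⟨m, _, h⟩ => hm ⟨m, h⟩), if_neg hx]

lemma gm_add_int (K Z : G) (m : ℕ) (x : ℝ) (k : ℤ) : gm K Z m (x + k) = gm K Z m x :=
  pr_add_int _ _ _ _ _ _ _ _

lemma GG_add_int (K Z : G) (n : ℕ) (x : ℝ) (k : ℤ) : GG K Z n (x + k) = GG K Z n x := by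
  induction n with
  | zero => rfl
  | succ n ih => rw [GG_succ, GG_succ, ih, gm_add_int]

lemma Good_add_int (K Z : G) (x : ℝ) (k : ℤ) : Good K Z (x + k) ↔ Good K Z x := by
  unfold Good
  simp only [gm_add_int]

lemma Gl_add_int (K Z : G) (x : ℝ) (k : ℤ) : Gl K Z (x + k) = Gl K Z x := by
  by_cases h : Good K Z x
  · have h' := (Good_add_int K Z x k).mpr h
    obtain ⟨N, hN⟩ := h
    obtain ⟨N', hN'⟩ := h'
    rw [← GG_eq_Gl hN' (le_max_right N N'), ← GG_eq_Gl hN (le_max_left N N'), GG_add_int]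
  · have h' : ¬ Good K Z (x + k) := fun h' => h ((Good_add_int K Z x k).mp h')
    unfold Gl
    rw [dif_neg h, dif_neg h']

end Pool.Agent.MP_a48a54_an.Ell
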