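import Mathlib
import Pool.Agent.MP_a48a54_an.Defs

/-!
A criterion for Zariski density in `SL(2,ℝ)`.
-/

open Matrix
open scoped MatrixGroups

namespace Pool.Agent.MP_a48a54_an

/-- the underlying matrix -/
def mt (g : SL(2, ℝ)) : Matrix (Fin 2) (Fin 2) ℝ := g

lemma mt_mul (g h : SL(2, ℝ)) : mt (g * h) = mt g * mt h := rfl
lemma mt_one : mt 1 = 1 := rfl
lemma mt_mul_inv (g : SL(2, ℝ)) : mt g * mt g⁻¹ = 1 := by rw [← mt_mul, mul_inv_cancel, mt_one]
lemma mt_inv_mul (g : SL(2, ℝ)) : mt g⁻¹ * mt g = 1 := by rw [← mt_mul, inv_mul_cancel, mt_one]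
lemma mt_injective {g h : SL(2, ℝ)} (H : mt g = mt h) : g = h := Subtype.ext H
lemma mt_det (g : SL(2, ℝ)) : (mt g).det = 1 := g.2
lemma mt_det' (g : SL(2, ℝ)) : mt g 0 0 * mt g 1 1 - mt g 0 1 * mt g 1 0 = 1 := by
  rw [← Matrix.det_fin_two]; exact g.2
lemma mt_inv (g : SL(2, ℝ)) : mt g⁻¹ = !![mt g 1 1, -mt g 0 1; -mt g 1 0, mt g 0 0] := by
  have : mt g⁻¹ = (mt g).adjugate := rfl
  rw [this, Matrix.adjugate_fin_two]

/-- the value of a polynomial at the entries of a matrix -/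
noncomputable def pev (p : MvPolynomial (Fin 2 × Fin 2) ℝ) (A : Matrix (Fin 2) (Fin 2) ℝ) : ℝ :=
  MvPolynomial.eval (fun ij => A ij.1 ij.2) p

/-- if a polynomial in the entries vanishes along `A + n B` for natural `n`, it vanishes along the
whole line. -/
lemma pev_line {p : MvPolynomial (Fin 2 × Fin 2) ℝ} {A B : Matrix (Fin 2) (Fin 2) ℝ}
    (h : ∀ n : ℕ, pev p (A + (n : ℝ) • B) = 0) (t : ℝ) : pev p (A + t • B) = 0 := by
  set q : Polynomial ℝ := MvPolynomial.eval₂ Polynomial.C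
    (fun ij => Polynomial.C (A ij.1 ij.2) + Polynomial.X * Polynomial.C (B ij.1 ij.2)) p with hq
  have hev : ∀ x : ℝ, q.eval x = pev p (A + x • B) := by
    intro x
    have h1 := MvPolynomial.eval₂_comp_left (Polynomial.evalRingHom x) Polynomial.C
      (fun ij : Fin 2 × Fin 2 => Polynomial.C (A ij.1 ij.2) +
        Polynomial.X * Polynomial.C (B ij.1 ij.2)) p
    rw [Polynomial.coe_evalRingHom] at h1
    rw [hq, h1]
    unfold pev
    rw [MvPolynomial.eval_eq', MvPolynomial.eval₂_eq']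
    simp only [Polynomial.coe_evalRingHom, RingHom.coe_comp, Function.comp_apply,
      Polynomial.eval_C, Polynomial.eval_add, Polynomial.eval_mul, Polynomial.eval_X,
      Matrix.add_apply, Matrix.smul_apply, smul_eq_mul]
  have hroot : q = 0 := by
    apply Polynomial.eq_zero_of_infinite_isRoot
    refine Set.Infinite.mono (s := Set.range (fun n : ℕ => (n : ℝ))) ?_
      (Set.infinite_range_of_injective Nat.cast_injective)
    rintro _ ⟨n, rfl⟩
    simp only [Set.mem_ofPred_eq, Polynomial.IsRoot]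
    rw [hev]; exact h n
  rw [← hev, hroot, Polynomial.eval_zero]

/-- The real Zariski closure of a subgroup, as a set. -/
def zcl (Γ : Subgroup SL(2, ℝ)) : Set SL(2, ℝ) :=
  {g | ∀ p : MvPolynomial (Fin 2 × Fin 2) ℝ, (∀ γ ∈ Γ, pev p (mt γ) = 0) → pev p (mt g) = 0}

/-- precomposition of a polynomial with left multiplication -/
lemma exists_translate (p : MvPolynomial (Fin 2 × Fin 2) ℝ) (M : Matrix (Fin 2) (Fin 2) ℝ) :
    ∃ q : MvPolynomial (Fin 2 × Fin 2) ℝ, ∀ A, pev q A = pev p (M * A) := by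
  refine ⟨MvPolynomial.eval₂ MvPolynomial.C
    (fun ij => ∑ k, MvPolynomial.C (M ij.1 k) * MvPolynomial.X (k, ij.2)) p, fun A => ?_⟩
  unfold pev
  have h1 := MvPolynomial.eval₂_comp_left
    (MvPolynomial.eval (fun ij : Fin 2 × Fin 2 => A ij.1 ij.2)) MvPolynomial.C
    (fun ij : Fin 2 × Fin 2 => ∑ k, MvPolynomial.C (M ij.1 k) * MvPolynomial.X (k, ij.2)) p
  rw [h1, MvPolynomial.eval_eq', MvPolynomial.eval₂_eq']
  simp [Matrix.mul_apply]

lemma zcl_mul_left {Γ : Subgroup SL(2, ℝ)} {γ g : SL(2, ℝ)} (hγ : γ ∈ Γ) (hg : g ∈ zcl Γ) :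
    γ * g ∈ zcl Γ := by
  intro p hp
  obtain ⟨q, hq⟩ := exists_translate p (mt γ)
  have := hg q (fun δ hδ => by
    rw [hq]
    exact hp (γ * δ) (Γ.mul_mem hγ hδ))
  rw [hq] at this
  exact this

lemma one_mem_zcl (Γ : Subgroup SL(2, ℝ)) : (1 : SL(2, ℝ)) ∈ zcl Γ :=
  fun _ hp => hp 1 Γ.one_mem

/-- closure under a one-parameter unipotent group -/
lemma zcl_unipotent {Γ : Subgroup SL(2, ℝ)} {X : Matrix (Fin 2) (Fin 2) ℝ}
    (hX : ∀ n : ℕ, ∃ γ ∈ Γ, mt γ = 1 + (n : ℝ) • X)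
    {g u : SL(2, ℝ)} (hg : g ∈ zcl Γ) {t : ℝ}
    (hu : mt u = 1 + t • X) : u * g ∈ zcl Γ := by
  intro p hp
  have h1 : ∀ n : ℕ, pev p (mt g + (n : ℝ) • (X * mt g)) = 0 := by
    intro n
    obtain ⟨γ, hγ, hγX⟩ := hX n
    have := zcl_mul_left hγ hg p hp
    rw [mt_mul, hγX, add_mul, one_mul, smul_mul_assoc] at this
    exact this
  have := pev_line h1 t
  rw [mt_mul, hu, add_mul, one_mul, smul_mul_assoc]
  exact this

/-- upper unipotent -/
def Um (t : ℝ) : SL(2, ℝ) := ⟨!![1, t; 0, 1], by simp [Matrix.det_fin_two_of]⟩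
/-- lower unipotent -/
def Lm (t : ℝ) : SL(2, ℝ) := ⟨!![1, 0; t, 1], by simp [Matrix.det_fin_two_of]⟩

lemma mt_Um (t : ℝ) : mt (Um t) = !![1, t; 0, 1] := rfl
lemma mt_Lm (t : ℝ) : mt (Lm t) = !![1, 0; t, 1] := rfl

/-- A set containing `1` and stable under left multiplication by the elementary matrices is
everything. -/
lemma eq_univ_of_elementary {V : Set SL(2, ℝ)} (h1 : (1 : SL(2, ℝ)) ∈ V)
    (hU : ∀ t, ∀ g ∈ V, Um t * g ∈ V) (hL : ∀ t, ∀ g ∈ V, Lm t * g ∈ V) (g : SL(2, ℝ)) :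
    g ∈ V := by
  have key : ∀ g : SL(2, ℝ), mt g 1 0 ≠ 0 → g ∈ V := by
    intro g hg
    have hdet := mt_det' g
    have hdec : g = Um ((mt g 0 0 - 1) / mt g 1 0) * (Lm (mt g 1 0) *
        (Um ((mt g 1 1 - 1) / mt g 1 0) * 1)) := by
      apply mt_injective
      rw [mul_one, mt_mul, mt_mul, mt_Um, mt_Um, mt_Lm]
      ext i j
      fin_cases i <;> fin_cases j <;>
        simp [Matrix.mul_apply, Fin.sum_univ_two] <;> field_simp <;> linarith
    rw [hdec]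
    exact hU _ _ (hL _ _ (hU _ _ h1))
  by_cases hg : mt g 1 0 = 0
  · have hdet := mt_det' g
    have hp : mt g 0 0 ≠ 0 := by
      intro h; rw [h, hg] at hdet; simp at hdet
    have h2 : (Lm 1 * g) ∈ V := by
      apply key
      rw [mt_mul, mt_Lm]
      simp [Matrix.mul_apply, Fin.sum_univ_two, hg, hp]
    have h3 := hL (-1) _ h2
    have h4 : Lm (-1) * (Lm 1 * g) = g := by
      apply mt_injective
      rw [mt_mul, mt_mul, mt_Lm, mt_Lm]
      ext i j
      fin_cases i <;> fin_cases j <;>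
        simp [Matrix.mul_apply, Fin.sum_univ_two, Matrix.vecMul, dotProduct]
    rwa [h4] at h3
  · exact key g hg

lemma conj_Um (h : SL(2, ℝ)) (t : ℝ) :
    mt (h * Um t * h⁻¹) = 1 + t • (mt h * !![0, 1; 0, 0] * mt h⁻¹) := by
  have e1 : mt (Um t) = 1 + t • !![0, 1; 0, 0] := by
    rw [mt_Um]
    ext i j; fin_cases i <;> fin_cases j <;> simp
  rw [mt_mul, mt_mul, e1, mul_add, add_mul, mul_one, mt_mul_inv, mul_smul_comm, smul_mul_assoc]

lemma conj_Lm (h : SL(2, ℝ)) (t : ℝ) :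
    mt (h * Lm t * h⁻¹) = 1 + t • (mt h * !![0, 0; 1, 0] * mt h⁻¹) := by
  have e1 : mt (Lm t) = 1 + t • !![0, 0; 1, 0] := by
    rw [mt_Lm]
    ext i j; fin_cases i <;> fin_cases j <;> simp
  rw [mt_mul, mt_mul, e1, mul_add, add_mul, mul_one, mt_mul_inv, mul_smul_comm, smul_mul_assoc]

/-- Two non-commuting unipotent one-parameter groups: if `h U(n x) h⁻¹` and `h L(n y) h⁻¹` are
in `Γ` then `Γ` is Zariski dense. -/
lemma zariskiDense_of_unipotents {Γ : Subgroup SL(2, ℝ)} {h : SL(2, ℝ)} {x y : ℝ}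
    (hx : x ≠ 0) (hy : y ≠ 0)
    (hU : ∀ n : ℕ, h * Um (n * x) * h⁻¹ ∈ Γ) (hL : ∀ n : ℕ, h * Lm (n * y) * h⁻¹ ∈ Γ) :
    ZariskiDense (Γ : Set SL(2, ℝ)) := by
  have hall : ∀ g : SL(2, ℝ), h * g * h⁻¹ ∈ zcl Γ := by
    intro g
    refine eq_univ_of_elementary (V := {g | h * g * h⁻¹ ∈ zcl Γ}) ?_ ?_ ?_ g
    · simp only [Set.mem_ofPred_eq, mul_one, mul_inv_cancel]
      exact one_mem_zcl Γ
    · intro t g hg
      simp only [Set.mem_ofPred_eq] at hg ⊢
      have e : h * (Um t * g) * h⁻¹ = (h * Um t * h⁻¹) * (h * g * h⁻¹) := by group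
      rw [e]
      refine zcl_unipotent (X := x • (mt h * !![0, 1; 0, 0] * mt h⁻¹))
        (fun n => ⟨_, hU n, ?_⟩) hg (t := t / x) ?_
      · rw [conj_Um, smul_smul]
      · rw [conj_Um, smul_smul, div_mul_cancel₀ _ hx]
    · intro t g hg
      simp only [Set.mem_ofPred_eq] at hg ⊢
      have e : h * (Lm t * g) * h⁻¹ = (h * Lm t * h⁻¹) * (h * g * h⁻¹) := by group
      rw [e]
      refine zcl_unipotent (X := y • (mt h * !![0, 0; 1, 0] * mt h⁻¹))
        (fun n => ⟨_, hL n, ?_⟩) hg (t := t / y) ?_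
      · rw [conj_Lm, smul_smul]
      · rw [conj_Lm, smul_smul, div_mul_cancel₀ _ hy]
  intro p hp g
  have := hall (h⁻¹ * g * h) p hp
  have e : h * (h⁻¹ * g * h) * h⁻¹ = g := by group
  rw [e] at this
  exact this

end Pool.Agent.MP_a48a54_an
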