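import Mathlib
import Pool.Agent.MP_a48a54_an.Defs
import Pool.Agent.MP_a48a54_an.Zariski

/-!
The two matrices of order three used in the elliptic example of MP_a48a54_an.
-/

open Matrix
open scoped MatrixGroups

namespace Pool.Agent.MP_a48a54_an.Ell

/-- an integer matrix of order three -/
def Zm : SL(2, ℝ) := ⟨!![0, -1; 1, -1], by norm_num [Matrix.det_fin_two_of]⟩
/-- another integer matrix of order three -/
def Km : SL(2, ℝ) := ⟨!![1, -3; 1, -2], by norm_num [Matrix.det_fin_two_of]⟩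

lemma mt_Zm : mt Zm = !![0, -1; 1, -1] := rfl
lemma mt_Km : mt Km = !![1, -3; 1, -2] := rfl

lemma Zm_cube : Zm ^ 3 = 1 := by
  apply mt_injective
  rw [pow_succ, pow_two, mt_mul, mt_mul, mt_Zm, mt_one]
  ext i j
  fin_cases i <;> fin_cases j <;> norm_num [Matrix.mul_apply, Fin.sum_univ_two]

lemma Km_cube : Km ^ 3 = 1 := by
  apply mt_injective
  rw [pow_succ, pow_two, mt_mul, mt_mul, mt_Km, mt_one]
  ext i j
  fin_cases i <;> fin_cases j <;> norm_num [Matrix.mul_apply, Fin.sum_univ_two]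

/-- the matrices of the cocycle -/
def Me (j : ℕ) : SL(2, ℝ) := if j = 1 then Zm * Km * Zm else Zm

lemma Um_add (a b : ℝ) : Um (a + b) = Um a * Um b := by
  apply mt_injective
  rw [mt_mul, mt_Um, mt_Um, mt_Um]
  ext i j
  fin_cases i <;> fin_cases j <;> simp [Matrix.mul_apply, Fin.sum_univ_two, add_comm]

lemma Lm_add (a b : ℝ) : Lm (a + b) = Lm a * Lm b := by
  apply mt_injective
  rw [mt_mul, mt_Lm, mt_Lm, mt_Lm]
  ext i j
  fin_cases i <;> fin_cases j <;> simp [Matrix.mul_apply, Fin.sum_univ_two]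

lemma Um_zero : Um 0 = 1 := by
  apply mt_injective
  rw [mt_Um, mt_one]
  ext i j
  fin_cases i <;> fin_cases j <;> simp

lemma Lm_zero : Lm 0 = 1 := by
  apply mt_injective
  rw [mt_Lm, mt_one]
  ext i j
  fin_cases i <;> fin_cases j <;> simp

lemma Um_pow (x : ℝ) (n : ℕ) : Um (n * x) = Um x ^ n := by
  induction n with
  | zero => simp [Um_zero]
  | succ n ih => rw [pow_succ, ← ih, ← Um_add]; congr 1; push_cast; ring

lemma Lm_pow (x : ℝ) (n : ℕ) : Lm (n * x) = Lm x ^ n := by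
  induction n with
  | zero => simp [Lm_zero]
  | succ n ih => rw [pow_succ, ← ih, ← Lm_add]; congr 1; push_cast; ring

lemma conj_U : Um 1 * Um (-4) * (Um 1)⁻¹ = Zm * Km * (Zm * Km) := by
  rw [mul_inv_eq_iff_eq_mul]
  apply mt_injective
  simp only [mt_mul, mt_Um, mt_Zm, mt_Km]
  ext i j
  fin_cases i <;> fin_cases j <;> norm_num [Matrix.mul_apply, Fin.sum_univ_two]

lemma conj_L : Um 1 * Lm 4 * (Um 1)⁻¹ = Km * Zm * (Km * Zm) := by
  rw [mul_inv_eq_iff_eq_mul]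
  apply mt_injective
  simp only [mt_mul, mt_Um, mt_Lm, mt_Zm, mt_Km]
  ext i j
  fin_cases i <;> fin_cases j <;> norm_num [Matrix.mul_apply, Fin.sum_univ_two]

lemma nonElementary_Me : NonElementary 3 Me := by
  unfold NonElementary
  set Γ := Subgroup.closure {A | ∃ j < 3, A = Me j} with hΓ
  have hZ : Zm ∈ Γ := Subgroup.subset_closure ⟨0, by norm_num, rfl⟩
  have h1 : Zm * Km * Zm ∈ Γ := Subgroup.subset_closure ⟨1, by norm_num, rfl⟩
  have hK : Km ∈ Γ := by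
    have h2 := Γ.mul_mem (Γ.mul_mem (Γ.inv_mem hZ) h1) (Γ.inv_mem hZ)
    have e : Zm⁻¹ * (Zm * Km * Zm) * Zm⁻¹ = Km := by group
    rwa [e] at h2
  refine zariskiDense_of_unipotents (h := Um 1) (x := -4) (y := 4) (by norm_num) (by norm_num)
    (fun n => ?_) (fun n => ?_)
  · rw [Um_pow, ← conj_pow, conj_U]
    exact Γ.pow_mem (Γ.mul_mem (Γ.mul_mem hZ hK) (Γ.mul_mem hZ hK)) n
  · rw [Lm_pow, ← conj_pow, conj_L]
    exact Γ.pow_mem (Γ.mul_mem (Γ.mul_mem hK hZ) (Γ.mul_mem hK hZ)) n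

/-- the rotation by `2π/3` -/
noncomputable def Rm : SL(2, ℝ) :=
  ⟨!![-1 / 2, -(√3 / 2); √3 / 2, -1 / 2], by
    have : √3 * √3 = (3 : ℝ) := Real.mul_self_sqrt (by norm_num)
    rw [Matrix.det_fin_two_of]; linarith⟩

lemma mt_Rm : mt Rm = !![-1 / 2, -(√3 / 2); √3 / 2, -1 / 2] := rfl

lemma exists_conj : ∃ H : SL(2, ℝ), H * Zm = Rm * H := by
  have h3 : √3 * √3 = (3 : ℝ) := Real.mul_self_sqrt (by norm_num)
  have hs : 0 < √3 := Real.sqrt_pos.mpr (by norm_num)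
  set a : ℝ := √(2 / √3) with ha
  have haa : a * a = 2 / √3 := Real.mul_self_sqrt (by positivity)
  have hdet : √3 / 2 * (a * a) = 1 := by rw [haa]; field_simp
  obtain ⟨H, hH⟩ : ∃ H : SL(2, ℝ), mt H = !![a, -(a / 2); 0, √3 / 2 * a] :=
    ⟨⟨!![a, -(a / 2); 0, √3 / 2 * a], by rw [Matrix.det_fin_two_of]; linarith⟩, rfl⟩
  refine ⟨H, ?_⟩
  apply mt_injective
  rw [mt_mul, mt_mul, mt_Rm, mt_Zm, hH]
  ext i j
  fin_cases i <;> fin_cases j
  · simp [Matrix.mul_apply, Fin.sum_univ_two]; ring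
  · simp [Matrix.mul_apply, Fin.sum_univ_two]
    linear_combination (a / 4) * h3
  · simp [Matrix.mul_apply, Fin.sum_univ_two]
  · simp [Matrix.mul_apply, Fin.sum_univ_two]; ring

lemma cos_val : Real.cos (2 * Real.pi / 3) = -1 / 2 := by
  rw [show 2 * Real.pi / 3 = Real.pi - Real.pi / 3 by ring, Real.cos_pi_sub, Real.cos_pi_div_three]
  ring

lemma sin_val : Real.sin (2 * Real.pi / 3) = √3 / 2 := by
  rw [show 2 * Real.pi / 3 = Real.pi - Real.pi / 3 by ring, Real.sin_pi_sub, Real.sin_pi_div_three]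

lemma Rm_eq : mt Rm = !![Real.cos (2 * Real.pi / 3), -Real.sin (2 * Real.pi / 3);
    Real.sin (2 * Real.pi / 3), Real.cos (2 * Real.pi / 3)] := by
  rw [cos_val, sin_val, mt_Rm]

lemma Rm_sq_eq : mt (Rm * Rm) = !![Real.cos (-(2 * Real.pi / 3)), -Real.sin (-(2 * Real.pi / 3));
    Real.sin (-(2 * Real.pi / 3)), Real.cos (-(2 * Real.pi / 3))] := by
  have h3 : √3 * √3 = (3 : ℝ) := Real.mul_self_sqrt (by norm_num)
  rw [Real.cos_neg, Real.sin_neg, cos_val, sin_val, mt_mul, mt_Rm]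
  ext i j
  fin_cases i <;> fin_cases j
  · simp [Matrix.mul_apply, Fin.sum_univ_two]; linarith
  · simp [Matrix.mul_apply, Fin.sum_univ_two]; linarith
  · simp [Matrix.mul_apply, Fin.sum_univ_two]; linarith
  · simp [Matrix.mul_apply, Fin.sum_univ_two]; linarith

end Pool.Agent.MP_a48a54_an.Ell
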