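import Mathlib
import Pool.Agent.MP_a48a54_an.Defs
import Pool.Agent.MP_a48a54_an.Rotation
import Pool.Agent.MP_a48a54_an.Zariski
import Pool.Agent.MP_a48a54_an.EllLimit

/-!
Measurability and almost everywhere convergence of the infinite product, for the elliptic example
of MP_a48a54_an.
-/

open MeasureTheory Set Filter Topology Function
open scoped MatrixGroups ENNReal

namespace Pool.Agent.MP_a48a54_an.Ell

lemma measurableSL_const (g : SL(2, ℝ)) : MeasurableSL fun _ => g :=
  fun _ _ => measurable_const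

lemma measurableSL_mul {A B : ℝ → SL(2, ℝ)} (hA : MeasurableSL A) (hB : MeasurableSL B) :
    MeasurableSL fun x => A x * B x := by
  intro i j
  have : (fun x => ((A x * B x : SL(2, ℝ)) : Matrix (Fin 2) (Fin 2) ℝ) i j) = fun x =>
      (A x : Matrix (Fin 2) (Fin 2) ℝ) i 0 * (B x : Matrix (Fin 2) (Fin 2) ℝ) 0 j +
      (A x : Matrix (Fin 2) (Fin 2) ℝ) i 1 * (B x : Matrix (Fin 2) (Fin 2) ℝ) 1 j := by
    funext x
    rw [Matrix.SpecialLinearGroup.coe_mul, Matrix.mul_apply, Fin.sum_univ_two]
  rw [this]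
  exact ((hA i 0).mul (hB 0 j)).add ((hA i 1).mul (hB 1 j))

lemma measurableSL_inv {A : ℝ → SL(2, ℝ)} (hA : MeasurableSL A) :
    MeasurableSL fun x => (A x)⁻¹ := by
  have h : ∀ x, mt (A x)⁻¹ = !![mt (A x) 1 1, -mt (A x) 0 1; -mt (A x) 1 0, mt (A x) 0 0] :=
    fun x => mt_inv (A x)
  intro i j
  show Measurable fun x => mt (A x)⁻¹ i j
  simp only [h]
  fin_cases i <;> fin_cases j
  · exact hA 1 1
  · exact (hA 0 1).neg
  · exact (hA 1 0).neg
  · exact hA 0 0

lemma measurableSL_pow (K : SL(2, ℝ)) {f : ℝ → ℕ} (hf : Measurable f) :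
    MeasurableSL fun x => K ^ f x := by
  intro i j
  exact (measurable_from_nat (f := fun n : ℕ => ((K ^ n : SL(2, ℝ)) : Matrix (Fin 2) (Fin 2) ℝ) i j)).comp hf

lemma measurableSL_comp {A : ℝ → SL(2, ℝ)} (hA : MeasurableSL A) {f : ℝ → ℝ} (hf : Measurable f) :
    MeasurableSL fun x => A (f x) :=
  fun i j => (hA i j).comp hf

lemma measurable_hh (x0 d : ℝ) : Measurable (hh x0 d) := by
  unfold hh
  have h : Measurable fun x : ℝ => Int.fract (x - x0) :=
    measurable_fract.comp (measurable_id.sub_const x0)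
  exact Measurable.ite (measurableSet_lt h measurable_const) measurable_const
    (Measurable.ite (measurableSet_lt h measurable_const) measurable_const measurable_const)

lemma measurableSL_pr (K Z : SL(2, ℝ)) (a x0 d : ℝ) (i : ℕ) :
    MeasurableSL (pr K Z a x0 d i) := by
  induction i with
  | zero => exact measurableSL_const 1
  | succ i ih =>
    refine measurableSL_mul ih (measurableSL_mul (measurableSL_mul (measurableSL_const _) ?_)
      (measurableSL_const _))
    exact measurableSL_pow K ((measurable_hh x0 d).comp (measurable_id.sub_const _))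

lemma measurableSL_gm (K Z : SL(2, ℝ)) (m : ℕ) : MeasurableSL (gm K Z m) :=
  measurableSL_pr _ _ _ _ _ _

lemma measurableSL_GG (K Z : SL(2, ℝ)) (n : ℕ) : MeasurableSL (GG K Z n) := by
  induction n with
  | zero => exact measurableSL_const 1
  | succ n ih => exact measurableSL_mul ih (measurableSL_gm K Z n)

lemma measurableSet_eq_one {A : ℝ → SL(2, ℝ)} (hA : MeasurableSL A) :
    MeasurableSet {x | A x = 1} := by
  have : {x | A x = 1} = ⋂ i : Fin 2, ⋂ j : Fin 2, {x | (A x : Matrix (Fin 2) (Fin 2) ℝ) i j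
      = (1 : Matrix (Fin 2) (Fin 2) ℝ) i j} := by
    ext x
    simp only [mem_ofPred_eq, mem_iInter]
    constructor
    · intro h i j; rw [h]; rfl
    · intro h
      apply Subtype.ext
      ext i j
      exact h i j
  rw [this]
  exact MeasurableSet.iInter fun i => MeasurableSet.iInter fun j =>
    measurableSet_eq_fun (hA i j) measurable_const

lemma measurableSet_Good (K Z : SL(2, ℝ)) : MeasurableSet {x | Good K Z x} := by
  have : {x | Good K Z x} = ⋃ N : ℕ, ⋂ m : ℕ, ⋂ _ : m ≥ N, {x | gm K Z m x = 1} := by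
    ext x
    simp [Good]
  rw [this]
  exact MeasurableSet.iUnion fun N => MeasurableSet.iInter fun m => MeasurableSet.iInter fun _ =>
    measurableSet_eq_one (measurableSL_gm K Z m)

open Classical in
lemma measurableSL_Gl (K Z : SL(2, ℝ)) : MeasurableSL (Gl K Z) := by
  intro i j
  show Measurable fun x => mt (Gl K Z x) i j
  refine measurable_of_tendsto_metrizable (f := fun n x => if Good K Z x then
    mt (GG K Z n x) i j else mt 1 i j)
    (fun n => Measurable.ite (measurableSet_Good K Z) (measurableSL_GG K Z n i j)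
      measurable_const) ?_
  rw [tendsto_pi_nhds]
  intro x
  by_cases h : Good K Z x
  · simp only [if_pos h]
    obtain ⟨N, hN⟩ := h
    refine tendsto_const_nhds.congr' ?_
    filter_upwards [eventually_ge_atTop N] with n hn
    rw [GG_eq_Gl hN hn]
  · simp only [if_neg h]
    have : Gl K Z x = 1 := by unfold Gl; rw [dif_neg h]
    rw [this]
    exact tendsto_const_nhds

lemma measure_fract_lt (Q : ℕ) (hQ : 1 < Q) (a c ε : ℝ) :
    (volume.restrict (Ioc a (a + 1))) {x : ℝ | Int.fract ((Q : ℝ) * (x - c)) < ε} ≤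
      ENNReal.ofReal ε := by
  have h1 := AddCircle.measurePreserving_mk (1 : ℝ) a
  have h2 : MeasurePreserving (fun y : AddCircle (1 : ℝ) => y - (c : AddCircle (1 : ℝ)))
      volume volume := measurePreserving_sub_right volume _
  have h3 : MeasurePreserving (fun y : AddCircle (1 : ℝ) => Q • y) volume volume :=
    (AddCircle.ergodic_nsmul hQ).toMeasurePreserving
  have h4 := measurePreserving_coord
  have h5 := ((h4.comp h3).comp h2).comp h1
  have hset : {x : ℝ | Int.fract ((Q : ℝ) * (x - c)) < ε} =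
      (((coord ∘ fun y : AddCircle (1 : ℝ) => Q • y) ∘
        fun y : AddCircle (1 : ℝ) => y - (c : AddCircle (1 : ℝ))) ∘
          (QuotientAddGroup.mk : ℝ → AddCircle (1 : ℝ))) ⁻¹' (Iio ε) := by
    ext x
    simp only [mem_ofPred_eq, mem_preimage, comp_apply, mem_Iio]
    have e : (Q • ((QuotientAddGroup.mk x : AddCircle (1 : ℝ)) - (c : AddCircle (1 : ℝ))) :
        AddCircle (1 : ℝ)) = (((Q : ℝ) * (x - c) : ℝ) : AddCircle (1 : ℝ)) := by
      rw [← nsmul_eq_mul]
      rfl
    rw [e, coord_mk]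
  rw [hset, h5.measure_preimage measurableSet_Iio.nullMeasurableSet]
  unfold leb
  rw [Measure.restrict_apply measurableSet_Iio]
  have : Iio ε ∩ Ico (0 : ℝ) 1 ⊆ Ico 0 ε := fun x hx => ⟨hx.2.1, hx.1⟩
  refine (measure_mono this).trans ?_
  rw [Real.volume_Ico, sub_zero]

lemma ae_Good (K Z : SL(2, ℝ)) : ∀ᵐ x : ℝ, Good K Z x := by
  have h1 : ∀ k : ℤ, ∀ᵐ x ∂(volume.restrict (Ioc (k : ℝ) (k + 1))), Good K Z x := by
    intro k
    have h2 : ∑' m : ℕ, (volume.restrict (Ioc (k : ℝ) (k + 1)))
        {x : ℝ | Int.fract ((Qn m : ℝ) * (x - Dn m)) < 3 * (Qn m : ℝ) * de m} ≠ ∞ := by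
      have h3 : ∑' m : ℕ, (volume.restrict (Ioc (k : ℝ) (k + 1)))
          {x : ℝ | Int.fract ((Qn m : ℝ) * (x - Dn m)) < 3 * (Qn m : ℝ) * de m} ≤
          ∑' m : ℕ, ENNReal.ofReal ((1 / 2) ^ m) := by
        refine ENNReal.tsum_le_tsum fun m => ?_
        refine (measure_fract_lt (Qn m) (by have := Qn_ge m; omega) _ _ _).trans ?_
        exact ENNReal.ofReal_le_ofReal (three_Qn_de_le m)
      refine ne_top_of_le_ne_top ?_ h3
      rw [← ENNReal.ofReal_tsum_of_nonneg (fun m => by positivity) summable_geometric_two]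
      exact ENNReal.ofReal_ne_top
    filter_upwards [ae_eventually_notMem h2] with x hx
    rw [eventually_atTop] at hx
    obtain ⟨N, hN⟩ := hx
    refine ⟨N, fun m hm => ?_⟩
    by_contra h
    exact hN m hm (fract_lt_of_gm_ne h)
  have h2 : ⋃ k : ℤ, Ioc (k : ℝ) (k + 1) = univ := iUnion_Ioc_intCast ℝ
  have h3 := (ae_restrict_iUnion_iff (μ := (volume : Measure ℝ))
    (fun k : ℤ => Ioc (k : ℝ) (k + 1)) (fun x => Good K Z x)).mpr h1
  rwa [h2, Measure.restrict_univ] at h3

end Pool.Agent.MP_a48a54_an.Ell
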