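import Mathlib
import Pool.Agent.MP_a48a54_an.Defs
import Pool.Agent.MP_a48a54_an.Rotation
import Pool.Agent.MP_a48a54_an.Zariski
import Pool.Agent.MP_a48a54_an.EllMeas
import Pool.Agent.MP_a48a54_an.EllMatrices
import Pool.Agent.MP_a48a54_an.EllIET

/-!
The elliptic example of MP_a48a54_an: the cocycle is conjugate to a cocycle of rotations by
multiples of `2π/3`.
-/

open MeasureTheory Set Filter Topology Function
open scoped MatrixGroups ENNReal

namespace Pool.Agent.MP_a48a54_an.Ell

/-- the scaling factor -/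
noncomputable def lam : ℝ := 1 - ss
/-- normalised rotation number -/
noncomputable def AA : ℝ := al / lam
/-- normalised short length -/
noncomputable def SS : ℝ := ss / lam

lemma lam_pos : 0 < lam := by unfold lam; linarith [ss_lt]
lemma lam_mul_AA : lam * AA = al := by unfold AA; rw [mul_div_cancel₀ _ lam_pos.ne']
lemma lam_mul_SS : lam * SS = ss := by unfold SS; rw [mul_div_cancel₀ _ lam_pos.ne']
lemma one_add_SS : (1 + SS) * lam = 1 := by
  have := lam_mul_SS
  rw [add_mul, one_mul, mul_comm SS, this]; unfold lam; ring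
lemma SS_pos : 0 < SS := div_pos ss_pos lam_pos
lemma SS_lt_AA : SS < AA := by
  unfold SS AA
  exact div_lt_div_of_pos_right (by linarith [ss_lt, al_gt]) lam_pos
lemma AA_lt_one : AA < 1 := by
  unfold AA
  rw [div_lt_one lam_pos]
  unfold lam
  linarith [ss_lt, al_lt]
lemma one_add_SS_mul_al : (1 + SS) * al = AA := by
  have h := one_add_SS
  have h2 := lam_mul_AA
  calc (1 + SS) * al = (1 + SS) * (lam * AA) := by rw [h2]
    _ = ((1 + SS) * lam) * AA := by ring
    _ = AA := by rw [h, one_mul]

/-- the cocycle -/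
noncomputable def rho (y : ℝ) : SL(2, ℝ) :=
  if 1 - AA ≤ y ∧ y < 1 - AA + SS then Zm * Km * Zm else Zm

lemma isPiecewiseConst_rho : IsPiecewiseConst 3 (c3 AA SS) Me rho := by
  intro j hj x hx
  have hS := SS_pos
  interval_cases j
  · rw [c3_zero, zero_add, c3_one] at hx
    unfold rho Me
    rw [if_neg (fun h => absurd hx.2 (not_lt.mpr h.1)), if_neg (by norm_num)]
  · rw [c3_one, show 1 + 1 = 2 from rfl, c3_two] at hx
    unfold rho Me
    rw [if_pos (And.intro hx.1 hx.2), if_pos rfl]
  · rw [c3_two, show 2 + 1 = 3 from rfl, c3_three] at hx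
    unfold rho Me
    rw [if_neg (fun h => absurd h.2 (not_lt.mpr hx.1)), if_neg (by norm_num)]

/-- the point of the circle over `y` -/
noncomputable def xp (y : ℝ) : ℝ := lam * y + (al + ss)

/-- the function realising the conjugation, before the final change of basis -/
noncomputable def B0 (y : ℝ) : SL(2, ℝ) := (Gl Km Zm (xp y))⁻¹

lemma measurableSL_B0 : MeasurableSL B0 := by
  unfold B0 xp
  exact measurableSL_inv (measurableSL_comp (measurableSL_Gl Km Zm)
    ((measurable_id.const_mul lam).add_const _))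

lemma ae_Good_xp : ∀ᵐ y ∂leb, Good Km Zm (xp y) := by
  unfold leb xp
  exact ae_restrict_of_ae (ae_comp_affine (ae_Good Km Zm) lam_pos.ne' _)

lemma B0_outside {y y' : ℝ} {k : ℤ} (hG : Good Km Zm (xp y)) (hx : ¬ Int.fract (xp y) < ss)
    (hy' : xp y' = xp y + al + k) : B0 y' * Zm * (B0 y)⁻¹ = Zm := by
  classical
  unfold B0
  rw [hy', Gl_add_int, Gl_step Km_cube Zm_cube hG, if_neg hx]
  group

lemma B0_inside {y y' : ℝ} {k : ℤ} (hG : Good Km Zm (xp y)) (hx : Int.fract (xp y) < ss)
    (hx2 : ¬ Int.fract (xp y + al) < ss)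
    (hy' : xp y' = xp y + al + al + k) : B0 y' * (Zm * Km * Zm) * (B0 y)⁻¹ = Zm * Zm := by
  classical
  unfold B0
  rw [hy', Gl_add_int, Gl_step Km_cube Zm_cube (hG.add_al Km_cube Zm_cube), if_neg hx2,
    Gl_step Km_cube Zm_cube hG, if_pos hx, ← pow_two]
  group

/-- the conjugated cocycle takes the values `Zm` and `Zm ^ 2` -/
theorem conj_eq {y : ℝ} (hy : y ∈ Ico (0 : ℝ) 1) (hG : Good Km Zm (xp y)) :
    B0 (T3 AA SS y) * rho y * (B0 y)⁻¹ =
      if 1 - AA ≤ y ∧ y < 1 - AA + SS then Zm * Zm else Zm := by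
  have hS := SS_pos
  have hSA := SS_lt_AA
  have hA := AA_lt_one
  have hl := lam_pos
  have e1 := lam_mul_AA
  have e2 := lam_mul_SS
  have e3 := one_add_SS
  have hal := al_gt
  have hal2 := al_lt
  have hss := ss_lt
  have hss0 := ss_pos
  have hlam : lam = 1 - ss := rfl
  by_cases c1 : y < 1 - AA
  · have hT : T3 AA SS y = y + AA := by unfold T3; rw [if_pos c1]
    have h1 : lam * y < lam * (1 - AA) := mul_lt_mul_of_pos_left c1 hl
    have h2 : 0 ≤ lam * y := mul_nonneg hl.le hy.1
    rw [mul_sub, mul_one, e1] at h1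
    have hf : Int.fract (xp y) = xp y := by
      unfold xp
      rw [Int.fract_eq_self]
      constructor <;> linarith
    rw [hT]
    unfold rho
    rw [if_neg (fun h => absurd c1 (not_lt.mpr h.1)), if_neg (fun h => absurd c1 (not_lt.mpr h.1))]
    refine B0_outside (k := 0) hG ?_ ?_
    · rw [hf]; unfold xp; linarith
    · unfold xp; rw [mul_add, e1]; push_cast; ring
  · have c1' := not_lt.mp c1
    have h1 : lam * (1 - AA) ≤ lam * y := mul_le_mul_of_nonneg_left c1' hl.le
    rw [mul_sub, mul_one, e1] at h1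
    by_cases c2 : y < 1 - AA + SS
    · have hT : T3 AA SS y = y + (2 * AA - 1 - SS) := by
        unfold T3; rw [if_neg c1, if_pos c2]
      have h2 : lam * y < lam * (1 - AA + SS) := mul_lt_mul_of_pos_left c2 hl
      rw [mul_add, mul_sub, mul_one, e1, e2] at h2
      have hf : Int.fract (xp y) = xp y - 1 := by
        unfold xp
        rw [Int.fract_eq_iff]
        exact ⟨by linarith, by linarith, 1, by push_cast; ring⟩
      have hf2 : Int.fract (xp y + al) = xp y + al - 1 := by
        unfold xp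
        rw [Int.fract_eq_iff]
        exact ⟨by linarith, by linarith, 1, by push_cast; ring⟩
      rw [hT]
      unfold rho
      rw [if_pos ⟨c1', c2⟩, if_pos ⟨c1', c2⟩]
      refine B0_inside (k := -1) hG ?_ ?_ ?_
      · rw [hf]; unfold xp; linarith
      · rw [hf2]; unfold xp; linarith
      · unfold xp; push_cast; linear_combination 2 * e1 - e3
    · have c2' := not_lt.mp c2
      have hT : T3 AA SS y = y + (AA - 1 - SS) := by
        unfold T3; rw [if_neg c1, if_neg c2]
      have h2 : lam * (1 - AA + SS) ≤ lam * y := mul_le_mul_of_nonneg_left c2' hl.le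
      have h3 : lam * y < lam * 1 := mul_lt_mul_of_pos_left hy.2 hl
      rw [mul_add, mul_sub, mul_one, e1, e2] at h2
      have hf : Int.fract (xp y) = xp y - 1 := by
        unfold xp
        rw [Int.fract_eq_iff]
        exact ⟨by linarith, by linarith, 1, by push_cast; ring⟩
      rw [hT]
      unfold rho
      rw [if_neg (fun h => c2 h.2), if_neg (fun h => c2 h.2)]
      refine B0_outside (k := -1) hG ?_ ?_
      · rw [hf]; unfold xp; linarith
      · unfold xp; push_cast; linear_combination e1 - e3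

/-- the set of points of the middle interval -/
lemma measurableSet_mid : MeasurableSet {y : ℝ | 1 - AA ≤ y ∧ y < 1 - AA + SS} := measurableSet_Ico

/-- The conjugation to rotations. -/
theorem exists_B : ∃ B : ℝ → SL(2, ℝ), MeasurableSL B ∧
    ∀ᵐ y ∂leb, B (T3 AA SS y) * rho y * (B y)⁻¹ =
      if 1 - AA ≤ y ∧ y < 1 - AA + SS then Rm * Rm else Rm := by
  obtain ⟨H, hH⟩ := exists_conj
  have hR : Rm = H * Zm * H⁻¹ := by rw [hH]; group
  refine ⟨fun y => H * B0 y, measurableSL_mul (measurableSL_const H) measurableSL_B0, ?_⟩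
  have h1 : ∀ᵐ y ∂leb, y ∈ Ico (0 : ℝ) 1 := ae_restrict_mem measurableSet_Ico
  filter_upwards [h1, ae_Good_xp] with y hy hG
  have h2 := conj_eq hy hG
  have e : H * B0 (T3 AA SS y) * rho y * (H * B0 y)⁻¹ =
      H * (B0 (T3 AA SS y) * rho y * (B0 y)⁻¹) * H⁻¹ := by group
  rw [e, h2, hR]
  split_ifs <;> group

theorem isEllipticType_rho : IsEllipticType (T3 AA SS) rho := by
  classical
  obtain ⟨B, hB, hae⟩ := exists_B
  refine ⟨B, fun y => if 1 - AA ≤ y ∧ y < 1 - AA + SS then -(2 * Real.pi / 3) else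
    2 * Real.pi / 3, hB, Measurable.ite measurableSet_mid measurable_const measurable_const, ?_⟩
  filter_upwards [hae] with y hy
  rw [hy]
  split_ifs with h
  · exact Rm_sq_eq
  · exact Rm_eq

theorem isIET_T : IsIET 3 (c3 AA SS) (T3 AA SS) := isIET_T3 SS_pos SS_lt_AA AA_lt_one

theorem ergodic_T : Ergodic (T3 AA SS) leb :=
  ergodic_T3 SS_pos SS_lt_AA AA_lt_one one_add_SS_mul_al irrational_al
    (by linarith [al_gt]) (by linarith [al_lt])

end Pool.Agent.MP_a48a54_an.Ell
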