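import Mathlib
import Pool.Agent.MP_a48a54_an.EllMain

/-!
The elliptic example of MP_a48a54_an is not of parabolic type.
-/

open MeasureTheory Set Filter Topology Function
open scoped MatrixGroups ENNReal

namespace Pool.Agent.MP_a48a54_an.Ell

/-- a primitive cube root of unity -/
noncomputable def om : ℂ := ((-1 / 2 : ℝ) : ℂ) + ((√3 / 2 : ℝ) : ℂ) * Complex.I

lemma om_sq : om ^ 2 + om + 1 = 0 := by
  have h3 : ((√3 : ℝ) : ℂ) * ((√3 : ℝ) : ℂ) = 3 := by
    rw [← Complex.ofReal_mul, Real.mul_self_sqrt (by norm_num)]; norm_num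
  have hI : Complex.I * Complex.I = -1 := Complex.I_mul_I
  unfold om
  push_cast
  linear_combination (Complex.I * Complex.I / 4) * h3 + (3 / 4) * hI

lemma om_cube : om ^ 3 = 1 := by
  have := om_sq
  linear_combination (om - 1) * this

lemma om_ne_one : om ≠ 1 := by
  intro h
  have := om_sq
  rw [h] at this
  norm_num at this

lemma om_ne_zero : om ≠ 0 := by
  intro h
  have := om_cube
  rw [h] at this
  norm_num at this

lemma norm_om : ‖om‖ = 1 := by
  have h : ‖om‖ ^ 3 = 1 := by rw [← norm_pow, om_cube, norm_one]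
  have h0 := norm_nonneg om
  nlinarith [sq_nonneg (‖om‖ - 1), sq_nonneg (‖om‖ + 1), sq_nonneg ‖om‖]

/-- the first column as a complex number -/
noncomputable def col (g : SL(2, ℝ)) : ℂ := ((mt g 0 0 : ℝ) : ℂ) + ((mt g 1 0 : ℝ) : ℂ) * Complex.I

lemma col_ne_zero (g : SL(2, ℝ)) : col g ≠ 0 := by
  intro h
  have h0 : mt g 0 0 = 0 := by
    have := congrArg Complex.re h
    simpa [col] using this
  have h1 : mt g 1 0 = 0 := by
    have := congrArg Complex.im h
    simpa [col] using this
  have := mt_det' g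
  rw [h0, h1] at this
  norm_num at this

lemma col_Rm_mul (g : SL(2, ℝ)) : col (Rm * g) = om * col g := by
  have hI : Complex.I * Complex.I = -1 := Complex.I_mul_I
  unfold col om
  rw [mt_mul, mt_Rm]
  have e0 : (!![-1 / 2, -(√3 / 2); √3 / 2, -1 / 2] * mt g) 0 0 =
      -1 / 2 * mt g 0 0 - √3 / 2 * mt g 1 0 := by
    simp [Matrix.mul_apply, Fin.sum_univ_two]; ring
  have e1 : (!![-1 / 2, -(√3 / 2); √3 / 2, -1 / 2] * mt g) 1 0 =
      √3 / 2 * mt g 0 0 - 1 / 2 * mt g 1 0 := by
    simp [Matrix.mul_apply, Fin.sum_univ_two]; ring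
  rw [e0, e1]
  push_cast
  linear_combination (-(√3 / 2 * (mt g 1 0 : ℂ))) * hI

lemma col_mul_upper {g U : SL(2, ℝ)} {v m w : ℝ} (hU : mt U = !![v, m; 0, w]) :
    col (g * U) = v * col g := by
  unfold col
  rw [mt_mul, hU]
  have e0 : (mt g * !![v, m; 0, w]) 0 0 = mt g 0 0 * v := by
    simp [Matrix.mul_apply, Fin.sum_univ_two]
  have e1 : (mt g * !![v, m; 0, w]) 1 0 = mt g 1 0 * v := by
    simp [Matrix.mul_apply, Fin.sum_univ_two]
  rw [e0, e1]
  push_cast
  ring

lemma measurable_col {A : ℝ → SL(2, ℝ)} (hA : MeasurableSL A) : Measurable fun y => col (A y) := by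
  unfold col
  exact (Complex.measurable_ofReal.comp (hA 0 0)).add
    ((Complex.measurable_ofReal.comp (hA 1 0)).mul_const _)

lemma rot_three {a v : ℝ} (h0 : 0 < a) (h1 : 3 * a < 1) (hv : v ∈ Ico (0 : ℝ) 1) :
    rot (3 * a) v = rot a (rot a (rot a v)) := by
  unfold rot
  split_ifs <;> linarith [hv.1, hv.2]

instance neBot_leb : (ae leb).NeBot := by
  rw [ae_neBot]
  intro h
  have h1 : leb univ = 1 := by
    unfold leb
    rw [Measure.restrict_apply_univ, Real.volume_Ico]
    simp
  rw [h] at h1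
  simp at h1

/-- the extension of a function on the base of the tower to the circle -/
noncomputable def ext (f : ℝ → ℂ) (v : ℝ) : ℂ :=
  if (1 + SS) * v < 1 then f (FF AA SS v) else om⁻¹ * f (FF AA SS v)

lemma ae_ext_rot {f : ℝ → ℂ}
    (h : ∀ᵐ y ∂leb, f (T3 AA SS y) =
      (if 1 - AA ≤ y ∧ y < 1 - AA + SS then om ^ 2 else om) * f y) :
    ∀ᵐ v ∂leb, ext f (rot al v) = om * ext f v := by
  have hS := SS_pos
  have hSA := SS_lt_AA
  have hA := AA_lt_one
  have hL : 0 < 1 + SS := by linarith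
  have hlA := one_add_SS_mul_al
  have hom := om_ne_zero
  unfold leb at h ⊢
  rw [ae_restrict_iff' measurableSet_Ico] at h ⊢
  have h1 := ae_comp_affine h hL.ne' 0
  filter_upwards [h1] with v hv hv01
  rw [add_zero] at hv
  have hFF := FF_rot hS hSA hA hlA hv01
  have h2 : 0 ≤ (1 + SS) * v := mul_nonneg hL.le hv01.1
  have h3 : (1 + SS) * v < 1 + SS := by nlinarith [hv01.2]
  have hiff : v < 1 - al ↔ (1 + SS) * v < 1 + SS - AA := by
    constructor
    · intro h; nlinarith
    · intro h; by_contra hc; push Not at hc; nlinarith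
  have e1 : (1 + SS) * (v + al) = (1 + SS) * v + AA := by rw [mul_add, hlA]
  have e2 : (1 + SS) * (v - (1 - al)) = (1 + SS) * v - (1 + SS - AA) := by
    rw [mul_sub, mul_sub, hlA, mul_one]
  unfold ext
  rw [hFF]
  by_cases c1 : (1 + SS) * v < 1
  · have hF : FF AA SS v = (1 + SS) * v := by unfold FF; rw [if_pos c1]
    have hv2 := hv ⟨h2, c1⟩
    rw [if_pos c1, if_pos c1, hF, hv2]
    by_cases c2 : v < 1 - al
    · have hr : (1 + SS) * rot al v = (1 + SS) * v + AA := by
        unfold rot; rw [if_pos c2, e1]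
      have c2' := hiff.mp c2
      rw [hr]
      by_cases c3 : (1 + SS) * v + AA < 1
      · rw [if_pos c3, if_neg (fun h => by linarith [h.1])]
      · rw [if_neg c3, if_pos ⟨by linarith, by linarith⟩]
        field_simp
    · have hr : (1 + SS) * rot al v = (1 + SS) * v - (1 + SS - AA) := by
        unfold rot; rw [if_neg c2, e2]
      have c2' : ¬ (1 + SS) * v < 1 + SS - AA := fun h => c2 (hiff.mpr h)
      rw [hr, if_pos (by linarith), if_neg (fun h => by linarith [h.2])]
  · have c2 : ¬ v < 1 - al := fun h => by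
      have := hiff.mp h
      linarith
    have hr : (1 + SS) * rot al v = (1 + SS) * v - (1 + SS - AA) := by
      unfold rot; rw [if_neg c2, e2]
    rw [hr, if_pos (by linarith), if_neg c1, if_neg c1]
    field_simp

lemma no_section {f : ℝ → ℂ} (hf : Measurable f) (hf0 : ∀ y, f y ≠ 0)
    (h : ∀ᵐ y ∂leb, f (T3 AA SS y) =
      (if 1 - AA ≤ y ∧ y < 1 - AA + SS then om ^ 2 else om) * f y) : False := by
  have h1 := ae_ext_rot h
  have hal := al_gt
  have hal2 := al_lt
  have herg : Ergodic (rot al) leb := ergodic_rot irrational_al (by linarith) (by linarith)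
  have hirr3 : Irrational (3 * al) := by
    have := irrational_al.natCast_mul (m := 3) (by norm_num)
    exact_mod_cast this
  have herg3 : Ergodic (rot (3 * al)) leb := ergodic_rot hirr3 (by linarith) (by linarith)
  have hqmp := herg.quasiErgodic.toQuasiMeasurePreserving
  have h2 : ∀ᵐ v ∂leb, ext f (rot al (rot al v)) = om * ext f (rot al v) := hqmp.ae h1
  have h3 : ∀ᵐ v ∂leb, ext f (rot al (rot al (rot al v))) = om * ext f (rot al (rot al v)) :=
    hqmp.ae h2
  have hmem : ∀ᵐ v ∂leb, v ∈ Ico (0 : ℝ) 1 := ae_restrict_mem measurableSet_Ico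
  have hinv : ext f ∘ rot (3 * al) =ᵐ[leb] ext f := by
    filter_upwards [h1, h2, h3, hmem] with v k1 k2 k3 k4
    rw [comp_apply, rot_three (by linarith) (by linarith) k4, k3, k2, k1]
    have := om_cube
    linear_combination (ext f v) * this
  have hm : Measurable (ext f) := by
    unfold ext
    exact Measurable.ite (measurableSet_lt (measurable_id.const_mul _) measurable_const)
      (hf.comp (measurable_FF _ _)) ((hf.comp (measurable_FF _ _)).const_mul _)
  obtain ⟨c, hc⟩ := herg3.ae_eq_const_of_ae_eq_comp₀ hm.nullMeasurable hinv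
  have hc2 : ∀ᵐ v ∂leb, ext f (rot al v) = c := hqmp.ae hc
  obtain ⟨v, k1, k2, k3⟩ := (h1.and (hc.and hc2)).exists
  have k2' : ext f v = c := k2
  have hne : ext f v ≠ 0 := by
    unfold ext
    split_ifs
    · exact hf0 _
    · exact mul_ne_zero (inv_ne_zero om_ne_zero) (hf0 _)
  rw [k3, k2'] at k1
  rw [k2'] at hne
  have : (om - 1) * c = 0 := by linear_combination -k1
  rcases mul_eq_zero.mp this with h | h
  · exact om_ne_one (sub_eq_zero.mp h)
  · exact hne h

theorem not_isParabolicType_rho : ¬ IsParabolicType (T3 AA SS) rho := by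
  rintro ⟨B', v, m, hB', -, -, hv, -, -, hae'⟩
  obtain ⟨B, hB, hae⟩ := exists_B
  set C : ℝ → SL(2, ℝ) := fun y => B y * (B' y)⁻¹ with hC
  have hCm : MeasurableSL C := measurableSL_mul hB (measurableSL_inv hB')
  set f : ℝ → ℂ := fun y => col (C y) / (‖col (C y)‖ : ℂ) with hf
  have hcol := measurable_col hCm
  have hfm : Measurable f := hcol.div (Complex.measurable_ofReal.comp hcol.norm)
  have hf0 : ∀ y, f y ≠ 0 := by
    intro y
    have h1 := col_ne_zero (C y)
    have h2 : (‖col (C y)‖ : ℂ) ≠ 0 := by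
      rw [Complex.ofReal_ne_zero]; exact norm_ne_zero_iff.mpr h1
    exact div_ne_zero h1 h2
  refine no_section hfm hf0 ?_
  filter_upwards [hae, hae'] with y h1 h2
  set U : SL(2, ℝ) := B' (T3 AA SS y) * rho y * (B' y)⁻¹ with hU
  have hmtU : mt U = !![v y, m y; 0, (v y)⁻¹] := h2
  have key : C (T3 AA SS y) * U =
      (if 1 - AA ≤ y ∧ y < 1 - AA + SS then Rm * Rm else Rm) * C y := by
    rw [← h1, hU, hC]
    group
  have hcolkey : (v y : ℂ) * col (C (T3 AA SS y)) =
      (if 1 - AA ≤ y ∧ y < 1 - AA + SS then om ^ 2 else om) * col (C y) := by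
    rw [← col_mul_upper hmtU, key]
    split_ifs
    · rw [mul_assoc, col_Rm_mul, col_Rm_mul]; ring
    · rw [col_Rm_mul]
  have hvy := hv y
  have hvc : (v y : ℂ) ≠ 0 := by rw [Complex.ofReal_ne_zero]; exact hvy.ne'
  have hnorm : v y * ‖col (C (T3 AA SS y))‖ = ‖col (C y)‖ := by
    have := congrArg norm hcolkey
    rw [norm_mul, norm_mul, Complex.norm_real, Real.norm_of_nonneg hvy.le] at this
    rw [this]
    split_ifs
    · rw [norm_pow, norm_om]; ring
    · rw [norm_om]; ring
  have hn1 : (‖col (C y)‖ : ℂ) ≠ 0 := by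
    rw [Complex.ofReal_ne_zero]; exact norm_ne_zero_iff.mpr (col_ne_zero _)
  have hn2 : (‖col (C (T3 AA SS y))‖ : ℂ) ≠ 0 := by
    rw [Complex.ofReal_ne_zero]; exact norm_ne_zero_iff.mpr (col_ne_zero _)
  have hnormc : (v y : ℂ) * (‖col (C (T3 AA SS y))‖ : ℂ) = (‖col (C y)‖ : ℂ) := by
    exact_mod_cast hnorm
  simp only [hf]
  rw [div_eq_iff hn2, mul_assoc, ← hnormc]
  have hn3 : (v y : ℂ) * (‖col (C (T3 AA SS y))‖ : ℂ) ≠ 0 := by rw [hnormc]; exact hn1
  set κ : ℂ := if 1 - AA ≤ y ∧ y < 1 - AA + SS then om ^ 2 else om with hκ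
  field_simp
  linear_combination hcolkey

end Pool.Agent.MP_a48a54_an.Ell
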