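import Mathlib

/-!
Circle homeomorphisms used for the parabolic example of MP_a48a54_an: rotation by `s` followed by a
Moebius distortion on `[0, s)`.
-/

open Set Function

namespace Pool.Agent.MP_a48a54_an

/-- Lift to the line of a function on the unit interval. -/
noncomputable def lift (φ : ℝ → ℝ) (x : ℝ) : ℝ := ⌊x⌋ + φ (Int.fract x)

lemma lift_add_one (φ : ℝ → ℝ) (x : ℝ) : lift φ (x + 1) = lift φ x + 1 := by
  unfold lift
  rw [Int.floor_add_one, Int.fract_add_one]
  push_cast; ring

lemma lift_mono {φ : ℝ → ℝ} (h : MonotoneOn φ (Icc 0 1)) (h0 : φ 0 = 0) (h1 : φ 1 = 1) :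
    Monotone (lift φ) := by
  intro x y hxy
  have hx0 := Int.fract_nonneg x
  have hx1 := (Int.fract_lt_one x).le
  have hy0 := Int.fract_nonneg y
  have hy1 := (Int.fract_lt_one y).le
  have hfl := Int.floor_mono hxy
  rcases hfl.eq_or_lt with he | hl
  · unfold lift
    rw [he]
    have : Int.fract x ≤ Int.fract y := by
      unfold Int.fract; rw [he]; linarith
    have := h ⟨hx0, hx1⟩ ⟨hy0, hy1⟩ this
    linarith
  · unfold lift
    have h2 := h ⟨hx0, hx1⟩ ⟨zero_le_one, le_rfl⟩ hx1
    have h3 := h ⟨le_rfl, zero_le_one⟩ ⟨hy0, hy1⟩ hy0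
    have h4 : ((⌊x⌋ + 1 : ℤ) : ℝ) ≤ ⌊y⌋ := by exact_mod_cast hl
    push_cast at h4
    linarith

/-- The Moebius distortion on `[0, s)`, identity on `[s, 1)`. -/
noncomputable def ph (s w : ℝ) : ℝ := if w < s then 4 * s * w / (s + 3 * w) else w

lemma ph_zero {s : ℝ} (hs : 0 < s) : ph s 0 = 0 := by
  unfold ph; simp [hs]

lemma ph_one {s : ℝ} (hs : s < 1) : ph s 1 = 1 := by
  unfold ph; rw [if_neg (by linarith)]

lemma ph_bilip {s : ℝ} (hs : 0 < s) {x y : ℝ} (hx : 0 ≤ x) (hxy : x ≤ y) :
    (y - x) / 4 ≤ ph s y - ph s x ∧ ph s y - ph s x ≤ 4 * (y - x) := by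
  unfold ph
  have hy : 0 ≤ y := hx.trans hxy
  have hsx : 0 < s + 3 * x := by positivity
  have hsy : 0 < s + 3 * y := by positivity
  have hd : 0 ≤ y - x := by linarith
  by_cases h1 : y < s
  · have h2 : x < s := lt_of_le_of_lt hxy h1
    rw [if_pos h1, if_pos h2]
    have key : 4 * s * y / (s + 3 * y) - 4 * s * x / (s + 3 * x)
        = 4 * s ^ 2 * (y - x) / ((s + 3 * y) * (s + 3 * x)) := by
      field_simp; ring
    rw [key]
    have h3 : 0 < (s + 3 * y) * (s + 3 * x) := by positivity
    constructor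
    · rw [le_div_iff₀ h3]
      have : (s + 3 * y) * (s + 3 * x) ≤ (4 * s) * (4 * s) :=
        mul_le_mul (by linarith) (by linarith) hsx.le (by positivity)
      nlinarith
    · rw [div_le_iff₀ h3]
      have : s * s ≤ (s + 3 * y) * (s + 3 * x) :=
        mul_le_mul (by linarith) (by linarith) hs.le (by positivity)
      nlinarith
  · rw [if_neg h1]
    push Not at h1
    by_cases h2 : x < s
    · rw [if_pos h2]
      have key : y - 4 * s * x / (s + 3 * x) = (y - s) + s * (s - x) / (s + 3 * x) := by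
        field_simp; ring
      rw [key]
      have h4 : 0 ≤ s - x := by linarith
      have hA : (s - x) / 4 ≤ s * (s - x) / (s + 3 * x) := by
        rw [div_le_div_iff₀ (by norm_num) hsx]; nlinarith
      have hB : s * (s - x) / (s + 3 * x) ≤ (s - x) := by
        rw [div_le_iff₀ hsx]; nlinarith [mul_nonneg hx h4]
      constructor <;> linarith
    · rw [if_neg h2]
      constructor <;> linarith

lemma ph_bounds {s : ℝ} (hs : 0 < s) {w : ℝ} (hw : 0 ≤ w) : w ≤ ph s w ∧ ph s w ≤ w + s / 3 := by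
  unfold ph
  have hsw : 0 < s + 3 * w := by positivity
  by_cases h1 : w < s
  · rw [if_pos h1]
    constructor
    · rw [le_div_iff₀ hsw]; nlinarith
    · rw [div_le_iff₀ hsw]; nlinarith [sq_nonneg (3 * w - s)]
  · rw [if_neg h1]
    constructor <;> linarith

lemma ph_lip_param {s t : ℝ} (hs : 0 < s) (ht : 0 < t) {w : ℝ} (hw : 0 ≤ w) :
    |ph s w - ph t w| ≤ 2 * |s - t| := by
  wlog hst : t ≤ s generalizing s t
  · rw [abs_sub_comm, abs_sub_comm s t]
    exact this ht hs (by linarith)
  have hsw : 0 < s + 3 * w := by positivity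
  have htw : 0 < t + 3 * w := by positivity
  have hd : 0 ≤ s - t := by linarith
  rw [abs_of_nonneg hd]
  unfold ph
  by_cases h1 : w < t
  · have h2 : w < s := by linarith
    rw [if_pos h1, if_pos h2]
    have key : 4 * s * w / (s + 3 * w) - 4 * t * w / (t + 3 * w)
        = 12 * w ^ 2 * (s - t) / ((s + 3 * w) * (t + 3 * w)) := by
      field_simp; ring
    rw [key, abs_of_nonneg (by positivity), div_le_iff₀ (by positivity)]
    have : (3 * w) * (3 * w) ≤ (s + 3 * w) * (t + 3 * w) :=
      mul_le_mul (by linarith) (by linarith) (by positivity) (by positivity)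
    nlinarith
  · rw [if_neg h1]
    push Not at h1
    by_cases h2 : w < s
    · rw [if_pos h2]
      have key : 4 * s * w / (s + 3 * w) - w = 3 * w * (s - w) / (s + 3 * w) := by
        field_simp; ring
      have : 0 ≤ s - w := by linarith
      rw [key, abs_of_nonneg (by positivity), div_le_iff₀ hsw]
      nlinarith [mul_nonneg hw this, mul_nonneg hw hd]
    · rw [if_neg h2]; simp; linarith

/-- The lift of the piecewise Moebius circle homeomorphism. -/
noncomputable def gfun (s u : ℝ) : ℝ := lift (ph s) (u + s)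

lemma lift_bilip {s : ℝ} (hs : 0 < s) (hs1 : s < 1) {x y : ℝ} (hxy : x ≤ y) :
    (y - x) / 4 ≤ lift (ph s) y - lift (ph s) x ∧
      lift (ph s) y - lift (ph s) x ≤ 4 * (y - x) := by
  have h1 : Monotone (lift (fun w => (4 * ph s w - w) / 3)) := by
    apply lift_mono
    · intro a ha b hb hab
      have := (ph_bilip hs ha.1 hab).1
      simp only
      linarith
    · simp [ph_zero hs]
    · simp [ph_one hs1]; norm_num
  have h2 : Monotone (lift (fun w => (4 * w - ph s w) / 3)) := by
    apply lift_mono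
    · intro a ha b hb hab
      have := (ph_bilip hs ha.1 hab).2
      simp only
      linarith
    · simp [ph_zero hs]
    · simp [ph_one hs1]; norm_num
  have e1 : ∀ z, lift (fun w => (4 * ph s w - w) / 3) z = (4 * lift (ph s) z - z) / 3 := by
    intro z
    unfold lift
    have := Int.floor_add_fract z
    linarith
  have e2 : ∀ z, lift (fun w => (4 * w - ph s w) / 3) z = (4 * z - lift (ph s) z) / 3 := by
    intro z
    unfold lift
    have := Int.floor_add_fract z
    linarith
  have h3 := h1 hxy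
  have h4 := h2 hxy
  rw [e1, e1] at h3
  rw [e2, e2] at h4
  constructor <;> linarith

lemma gfun_bilip {s : ℝ} (hs : 0 < s) (hs1 : s < 1) {x y : ℝ} (hxy : x ≤ y) :
    (y - x) / 4 ≤ gfun s y - gfun s x ∧ gfun s y - gfun s x ≤ 4 * (y - x) := by
  unfold gfun
  have := lift_bilip hs hs1 (x := x + s) (y := y + s) (by linarith)
  constructor <;> linarith [this.1, this.2]

lemma gfun_strictMono {s : ℝ} (hs : 0 < s) (hs1 : s < 1) : StrictMono (gfun s) := by
  intro x y hxy
  have := (gfun_bilip hs hs1 hxy.le).1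
  linarith

lemma gfun_lip {s : ℝ} (hs : 0 < s) (hs1 : s < 1) (x y : ℝ) :
    |gfun s x - gfun s y| ≤ 4 * |x - y| := by
  rcases le_total x y with h | h
  · have h1 := gfun_bilip hs hs1 h
    rw [abs_sub_comm, abs_sub_comm x y, abs_of_nonneg (by linarith [h1.1]),
      abs_of_nonneg (by linarith)]
    exact h1.2
  · have h1 := gfun_bilip hs hs1 h
    rw [abs_of_nonneg (by linarith [h1.1]), abs_of_nonneg (by linarith)]
    exact h1.2

lemma gfun_continuous {s : ℝ} (hs : 0 < s) (hs1 : s < 1) : Continuous (gfun s) := by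
  have : LipschitzWith 4 (gfun s) := LipschitzWith.of_dist_le_mul (fun x y => by
    rw [Real.dist_eq, Real.dist_eq]
    simpa using gfun_lip hs hs1 x y)
  exact this.continuous

/-- `gfun s` as a bundled lift. -/
noncomputable def g (s : ℝ) (hs : 0 < s) (hs1 : s < 1) : CircleDeg1Lift where
  toFun := gfun s
  monotone' := (gfun_strictMono hs hs1).monotone
  map_add_one' := fun x => by
    unfold gfun
    rw [show x + 1 + s = x + s + 1 by ring, lift_add_one]

lemma g_apply {s : ℝ} (hs : 0 < s) (hs1 : s < 1) (x : ℝ) : g s hs hs1 x = gfun s x := rfl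

lemma g_bijective {s : ℝ} (hs : 0 < s) (hs1 : s < 1) : Bijective (g s hs hs1) :=
  ⟨(gfun_strictMono hs hs1).injective,
    (CircleDeg1Lift.continuous_iff_surjective (g s hs hs1)).1 (gfun_continuous hs hs1)⟩

lemma gfun_bounds {s : ℝ} (hs : 0 < s) (u : ℝ) : u + s ≤ gfun s u ∧ gfun s u ≤ u + 4 * s / 3 := by
  unfold gfun lift
  have h := ph_bounds hs (Int.fract_nonneg (u + s))
  have h2 := Int.floor_add_fract (u + s)
  constructor <;> linarith [h.1, h.2]

lemma tau_le {s : ℝ} (hs : 0 < s) (hs1 : s < 1) : (g s hs hs1).translationNumber ≤ 4 * s / 3 :=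
  CircleDeg1Lift.translationNumber_le_of_le_add _ fun x => (gfun_bounds hs x).2

lemma le_tau {s : ℝ} (hs : 0 < s) (hs1 : s < 1) : s ≤ (g s hs hs1).translationNumber :=
  CircleDeg1Lift.le_translationNumber_of_add_le _ fun x => (gfun_bounds hs x).1

lemma gfun_lip_param {s t : ℝ} (hs : 0 < s) (hs1 : s < 1) (ht : 0 < t) (u v : ℝ) :
    |gfun s u - gfun t v| ≤ 4 * |u - v| + 6 * |s - t| := by
  have h1 : |lift (ph s) (u + s) - lift (ph s) (v + t)| ≤ 4 * |(u + s) - (v + t)| := by
    have := gfun_lip hs hs1 u (v + t - s)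
    unfold gfun at this
    rw [show v + t - s + s = v + t by ring, show u - (v + t - s) = u + s - (v + t) by ring] at this
    exact this
  have h2 : |lift (ph s) (v + t) - lift (ph t) (v + t)| ≤ 2 * |s - t| := by
    unfold lift
    have := ph_lip_param hs ht (Int.fract_nonneg (v + t))
    rw [show ((⌊v + t⌋ : ℝ) + ph s (Int.fract (v + t)) - (⌊v + t⌋ + ph t (Int.fract (v + t))))
      = ph s (Int.fract (v + t)) - ph t (Int.fract (v + t)) by ring]
    exact this
  have h3 : |(u + s) - (v + t)| ≤ |u - v| + |s - t| := by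
    rw [show (u + s) - (v + t) = (u - v) + (s - t) by ring]
    exact abs_add_le _ _
  have h4 : |gfun s u - gfun t v| ≤ |lift (ph s) (u + s) - lift (ph s) (v + t)| +
      |lift (ph s) (v + t) - lift (ph t) (v + t)| := by
    unfold gfun
    rw [show lift (ph s) (u + s) - lift (ph t) (v + t) =
      (lift (ph s) (u + s) - lift (ph s) (v + t)) +
      (lift (ph s) (v + t) - lift (ph t) (v + t)) by ring]
    exact abs_add_le _ _
  linarith

lemma iter_lip {s : ℝ} (hs : 0 < s) (hs1 : s < 1) (n : ℕ) :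
    ∃ C : ℝ, 0 ≤ C ∧ ∀ t : ℝ, 0 < t → |(gfun s)^[n] 0 - (gfun t)^[n] 0| ≤ C * |s - t| := by
  induction n with
  | zero => exact ⟨0, le_rfl, fun t _ => by simp⟩
  | succ n ih =>
    obtain ⟨C, hC, h⟩ := ih
    refine ⟨4 * C + 6, by positivity, fun t ht => ?_⟩
    rw [iterate_succ_apply', iterate_succ_apply']
    have h1 := gfun_lip_param hs hs1 ht ((gfun s)^[n] 0) ((gfun t)^[n] 0)
    have h2 := h t ht
    nlinarith [abs_nonneg (s - t)]

/-- the translation number as a function of the parameter -/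
noncomputable def tau (s : ℝ) : ℝ :=
  if h : 0 < s ∧ s < 1 then (g s h.1 h.2).translationNumber else 0

lemma tau_eq {s : ℝ} (hs : 0 < s) (hs1 : s < 1) : tau s = (g s hs hs1).translationNumber := by
  unfold tau; rw [dif_pos ⟨hs, hs1⟩]

lemma tau_approx {s : ℝ} (hs : 0 < s) (hs1 : s < 1) (n : ℕ) :
    |(gfun s)^[n] 0 - n * tau s| ≤ 1 := by
  rw [tau_eq hs hs1]
  have := CircleDeg1Lift.dist_pow_map_zero_mul_translationNumber_le (g s hs hs1) n
  rw [CircleDeg1Lift.coe_pow, Real.dist_eq] at this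
  exact this

lemma tau_continuousOn : ContinuousOn tau (Ioo 0 1) := by
  rw [Metric.continuousOn_iff]
  intro s hs ε hε
  obtain ⟨n, hn⟩ := exists_nat_gt (4 / ε)
  have hnpos : (0 : ℝ) < n := lt_trans (by positivity) hn
  obtain ⟨C, hC, h⟩ := iter_lip hs.1 hs.2 n
  refine ⟨1 / (C + 1), by positivity, fun t ht hts => ?_⟩
  rw [Real.dist_eq] at hts ⊢
  have h1 := tau_approx hs.1 hs.2 n
  have h2 := tau_approx ht.1 ht.2 n
  have h3 := h t ht.1
  have h4 : C * |s - t| ≤ 1 := by
    rw [abs_sub_comm]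
    have : |t - s| * (C + 1) < 1 := by
      rwa [lt_div_iff₀ (by positivity)] at hts
    nlinarith [abs_nonneg (t - s)]
  have h5 : |(n : ℝ) * tau t - n * tau s| ≤ 3 := by
    rw [abs_le] at h1 h2 h3 ⊢
    constructor <;> linarith [h1.1, h1.2, h2.1, h2.2, h3.1, h3.2]
  rw [← mul_sub, abs_mul, Nat.abs_cast] at h5
  have h6 : 4 < n * ε := by
    rwa [div_lt_iff₀ hε] at hn
  by_contra hcon
  push Not at hcon
  nlinarith

/-- Every `α ∈ (0,1)` is the translation number of some `g s`, `0 < s < 1`. -/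
lemma exists_tau_eq {α : ℝ} (h0 : 0 < α) (h1 : α < 1) :
    ∃ s, ∃ hs : 0 < s, ∃ hs1 : s < 1, (g s hs hs1).translationNumber = α := by
  have hsub : Icc (3 * α / 4) α ⊆ Ioo 0 1 := fun x hx => ⟨by linarith [hx.1], by linarith [hx.2]⟩
  have hle : 3 * α / 4 ≤ α := by linarith
  have hA : tau (3 * α / 4) ≤ α := by
    rw [tau_eq (by linarith) (by linarith)]
    refine (tau_le _ _).trans ?_
    linarith
  have hB : α ≤ tau α := by
    rw [tau_eq h0 h1]
    exact le_tau _ _
  obtain ⟨s, hs, hst⟩ := intermediate_value_Icc hle (tau_continuousOn.mono hsub) ⟨hA, hB⟩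
  have := hsub hs
  exact ⟨s, this.1, this.2, by rw [← tau_eq]; exact hst⟩

end Pool.Agent.MP_a48a54_an
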