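import Mathlib
import Pool.Agent.MP_a48a54_an.Lift

/-!
The strictly monotone invariant section over the rotation by `α`.
-/

open Set Function

namespace Pool.Agent.MP_a48a54_an

/-- Equality of values propagates along the group generated by `1` and `α`. -/
lemma propagate {α s : ℝ} (hs : 0 < s) (hs1 : s < 1) {L : ℝ → ℝ}
    (h1 : ∀ x, L (x + 1) = L x + 1) (ha : ∀ x, L (x + α) = gfun s (L x)) {z : ℝ}
    (hz : z ∈ AddSubgroup.closure ({α, 1} : Set ℝ)) :
    ∀ x y, L x = L y ↔ L (x + z) = L (y + z) := by
  induction hz using AddSubgroup.closure_induction with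
  | mem z hz =>
    intro x y
    rcases hz with rfl | hz
    · rw [ha, ha]
      exact ⟨fun h => by rw [h], fun h => (gfun_strictMono hs hs1).injective h⟩
    · rw [mem_singleton_iff] at hz
      subst hz
      rw [h1, h1]
      constructor <;> intro h <;> linarith
  | zero => intro x y; simp
  | add z w _ _ ihz ihw =>
    intro x y
    rw [← add_assoc, ← add_assoc]
    exact (ihz _ _).trans (ihw _ _)
  | neg z hz ih =>
    intro x y
    have := ih (x + -z) (y + -z)
    simpa using this.symm

/-- A monotone invariant section over an irrational rotation is strictly monotone. -/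
lemma section_strictMono {α s : ℝ} (hα : Irrational α) (hs : 0 < s) (hs1 : s < 1) {L : ℝ → ℝ}
    (hL : Monotone L) (h1 : ∀ x, L (x + 1) = L x + 1) (ha : ∀ x, L (x + α) = gfun s (L x)) :
    StrictMono L := by
  intro a b hab
  refine lt_of_le_of_ne (hL hab.le) fun he => ?_
  have hdense : Dense (AddSubgroup.closure ({α, 1} : Set ℝ) : Set ℝ) := by
    rw [dense_addSubgroupClosure_pair_iff]; simpa using hα
  have hloc : IsLocallyConstant L := by
    rw [IsLocallyConstant.iff_exists_open]
    intro y
    obtain ⟨z, hz, hzI⟩ := hdense.exists_mem_open (isOpen_Ioo (a := y - b) (b := y - a))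
      ⟨y - (a + b) / 2, by constructor <;> linarith⟩
    refine ⟨Ioo (a + z) (b + z), isOpen_Ioo, ⟨by linarith [hzI.2], by linarith [hzI.1]⟩, ?_⟩
    have key : L (a + z) = L (b + z) := (propagate hs hs1 h1 ha hz a b).1 he
    have hconst : ∀ x ∈ Ioo (a + z) (b + z), L x = L (a + z) := fun x hx =>
      le_antisymm (by rw [key]; exact hL hx.2.le) (hL hx.1.le)
    intro x hx
    rw [hconst x hx, hconst y ⟨by linarith [hzI.2], by linarith [hzI.1]⟩]
  have := hloc.apply_eq_of_preconnectedSpace 0 (0 + 1)
  rw [h1] at this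
  linarith

/-- The normalised invariant section. -/
lemma exists_section {α : ℝ} (hα : Irrational α) (h0 : 0 < α) (h1 : α < 1) :
    ∃ s, 0 < s ∧ s < 1 ∧ ∃ L : ℝ → ℝ, StrictMono L ∧ (∀ x, L (x + 1) = L x + 1) ∧
      (∀ x, L (x + α) = gfun s (L x)) ∧ (∀ x, 0 < x → 0 < L x) ∧ (∀ x, x < 1 → L x < 1) := by
  obtain ⟨s, hs, hs1, hτ⟩ := exists_tau_eq h0 h1
  have hT : Function.Bijective
      ((CircleDeg1Lift.translate (Multiplicative.ofAdd α) : CircleDeg1Liftˣ) : CircleDeg1Lift) :=
    CircleDeg1Lift.isUnit_iff_bijective.1 (Units.isUnit _)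
  obtain ⟨F, hF⟩ := CircleDeg1Lift.semiconj_of_bijective_of_translationNumber_eq
    (f₁ := ((CircleDeg1Lift.translate (Multiplicative.ofAdd α) : CircleDeg1Liftˣ) :
      CircleDeg1Lift)) (f₂ := g s hs hs1) hT (g_bijective hs hs1)
    (by rw [CircleDeg1Lift.translationNumber_translate, hτ])
  have hFa : ∀ x, F (x + α) = gfun s (F x) := by
    intro x
    have := hF x
    rw [CircleDeg1Lift.translate_apply, g_apply] at this
    rwa [add_comm]
  have hF1 : ∀ x, F (x + 1) = F x + 1 := F.map_add_one
  have hFs : StrictMono F := section_strictMono hα hs hs1 F.monotone hF1 hFa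
  -- normalisation
  set S : Set ℝ := {x | 0 ≤ F x} with hS
  have hSne : S.Nonempty := by
    obtain ⟨x, hx⟩ := (F.tendsto_atTop.eventually_ge_atTop 0).exists
    exact ⟨x, hx⟩
  have hSbdd : BddBelow S := by
    obtain ⟨x, hx⟩ := (F.tendsto_atBot.eventually_lt_atBot 0).exists
    refine ⟨x, fun y hy => ?_⟩
    by_contra hcon
    push Not at hcon
    have := F.monotone hcon.le
    have hy' : 0 ≤ F y := hy
    linarith
  set x0 := sInf S with hx0
  have habove : ∀ x, x0 < x → 0 ≤ F x := by
    intro x hx
    obtain ⟨y, hy, hyx⟩ := exists_lt_of_csInf_lt hSne hx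
    exact le_trans hy (F.monotone hyx.le)
  have hbelow : ∀ x, x < x0 → F x < 0 := by
    intro x hx
    by_contra hcon
    push Not at hcon
    exact absurd (csInf_le hSbdd hcon) (not_le.mpr hx)
  refine ⟨s, hs, hs1, fun x => F (x + x0), ?_, ?_, ?_, ?_, ?_⟩
  · intro x y hxy
    exact hFs (by linarith)
  · intro x
    simp only
    rw [show x + 1 + x0 = x + x0 + 1 by ring, hF1]
  · intro x
    simp only
    rw [show x + α + x0 = x + x0 + α by ring, hFa]
  · intro x hx
    have h2 := habove (x / 2 + x0) (by linarith)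
    have h3 : F (x / 2 + x0) < F (x + x0) := hFs (by linarith)
    simp only
    linarith
  · intro x hx
    have h2 := hbelow (x - 1 + x0) (by linarith)
    have h3 := hF1 (x - 1 + x0)
    rw [show x - 1 + x0 + 1 = x + x0 by ring] at h3
    simp only
    linarith

end Pool.Agent.MP_a48a54_an
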