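import Mathlib
import Pool.Agent.MP_a48a54_an.Section

/-!
Vanishing of the integral of `log v` for the parabolic example.
-/

open Set Function MeasureTheory Filter Topology

namespace Pool.Agent.MP_a48a54_an

/-- Coboundaries of periodic measurable functions over a rotation have integral zero as soon as
they are bounded. -/
lemma integral_coboundary_eq_zero {f : ℝ → ℝ} {α C : ℝ} (hf : Measurable f)
    (hper : Function.Periodic f 1) (hC : ∀ x, |f (x + α) - f x| ≤ C) :
    ∫ x in (0 : ℝ)..1, (f (x + α) - f x) = 0 := by
  set F : ℕ → ℝ → ℝ := fun N x => max (-(N : ℝ)) (min N (f x)) with hF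
  have hFm : ∀ N, Measurable (F N) := fun N => measurable_const.max (measurable_const.min hf)
  have hFb : ∀ N x, |F N x| ≤ N := by
    intro N x
    have hN : (0 : ℝ) ≤ N := Nat.cast_nonneg N
    rw [abs_le]
    exact ⟨le_max_left _ _, max_le (by linarith) (min_le_left _ _)⟩
  have hFper : ∀ N, Function.Periodic (F N) 1 := fun N x => by simp only [hF, hper x]
  have hFint : ∀ N (a b : ℝ), IntervalIntegrable (F N) volume a b := by
    intro N a b
    refine (intervalIntegrable_const (c := (N : ℝ))).mono_fun (hFm N).aestronglyMeasurable ?_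
    refine Eventually.of_forall fun x => ?_
    simp only [Real.norm_eq_abs, Nat.abs_cast]
    exact hFb N x
  have hzero : ∀ N, ∫ x in (0 : ℝ)..1, (F N (x + α) - F N x) = 0 := by
    intro N
    have hi1 : IntervalIntegrable (fun x => F N (x + α)) volume 0 1 := by
      have := (hFint N (0 + α) (1 + α)).comp_add_right α
      simpa using this
    rw [intervalIntegral.integral_sub hi1 (hFint N 0 1)]
    rw [intervalIntegral.integral_comp_add_right]
    have := (hFper N).intervalIntegral_add_eq (0 + α) 0
    rw [show (0 : ℝ) + α + 1 = 1 + α by ring, zero_add 1] at this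
    rw [this, sub_self]
  have hlip : ∀ N x y, |F N x - F N y| ≤ |f x - f y| := by
    intro N x y
    simp only [hF]
    rw [max_comm (-(N : ℝ)) (min N (f x)), max_comm (-(N : ℝ)) (min N (f y))]
    refine (abs_max_sub_max_le_abs _ _ _).trans ((abs_min_sub_min_le_max _ _ _ _).trans ?_)
    simp
  have hlim : Tendsto (fun N : ℕ => ∫ x in (0 : ℝ)..1, (F N (x + α) - F N x)) atTop
      (𝓝 (∫ x in (0 : ℝ)..1, (f (x + α) - f x))) := by
    refine intervalIntegral.tendsto_integral_filter_of_dominated_convergence (fun _ => C)
      (Eventually.of_forall fun N => ?_) (Eventually.of_forall fun N => ?_)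
      intervalIntegrable_const ?_
    · exact (((hFm N).comp (measurable_id.add_const α)).sub (hFm N)).aestronglyMeasurable
    · refine Eventually.of_forall fun x _ => ?_
      rw [Real.norm_eq_abs]
      exact (hlip N _ _).trans (hC x)
    · refine Eventually.of_forall fun x _ => ?_
      refine tendsto_const_nhds.congr' ?_
      obtain ⟨n, hn⟩ := exists_nat_gt (max |f (x + α)| |f x|)
      filter_upwards [eventually_ge_atTop n] with N hN
      have hN' : (n : ℝ) ≤ N := by exact_mod_cast hN
      have h1 : |f (x + α)| ≤ N := by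
        have := le_max_left |f (x + α)| |f x|; linarith
      have h2 : |f x| ≤ N := by
        have := le_max_right |f (x + α)| |f x|; linarith
      have e : ∀ y : ℝ, |y| ≤ N → max (-(N : ℝ)) (min N y) = y := by
        intro y hy
        rw [abs_le] at hy
        rw [min_eq_right hy.2, max_eq_right hy.1]
      simp only [hF]
      rw [e _ h1, e _ h2]
  refine tendsto_nhds_unique hlim ?_
  simp only [hzero]
  exact tendsto_const_nhds

/-- The multiplier of the invariant section. -/
noncomputable def vfun (α s : ℝ) (L : ℝ → ℝ) (x : ℝ) : ℝ :=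
  if 1 - α < x ∧ x < 1 then (s + 3 * (L x + s - 1)) / (2 * s) else 1

variable {α s : ℝ} {L : ℝ → ℝ}

lemma L_low (hα0 : 0 < α) (hs : 0 < s) (hs1 : s < 1)
    (ha : ∀ x, L (x + α) = gfun s (L x)) (hpos : ∀ x, 0 < x → 0 < L x)
    (hlt : ∀ x, x < 1 → L x < 1) {x : ℝ} (hx0 : 0 < x) (hx1 : x < 1 - α) :
    L x < 1 - s ∧ L (x + α) = L x + s := by
  have h1 : L (x + α) < 1 := hlt _ (by linarith)
  have h0 : 0 < L x := hpos x hx0
  have h2 : L x < 1 - s := by
    by_contra hcon
    push Not at hcon
    have := (gfun_bounds hs (L x)).1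
    rw [ha] at h1
    linarith
  refine ⟨h2, ?_⟩
  rw [ha]
  unfold gfun lift
  have hfl : ⌊L x + s⌋ = 0 := by
    rw [Int.floor_eq_iff]; constructor <;> push_cast <;> linarith
  have hfr : Int.fract (L x + s) = L x + s := by
    rw [Int.fract, hfl]; simp
  rw [hfl, hfr]
  unfold ph
  rw [if_neg (by linarith)]
  simp

lemma L_high (hα0 : 0 < α) (hs : 0 < s) (hs1 : s < 1)
    (h1 : ∀ x, L (x + 1) = L x + 1)
    (ha : ∀ x, L (x + α) = gfun s (L x)) (hpos : ∀ x, 0 < x → 0 < L x)
    (hlt : ∀ x, x < 1 → L x < 1) {x : ℝ} (hx0 : 1 - α < x) (hx1 : x < 1) :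
    1 - s ≤ L x ∧ L x < 1 ∧
      L (x + α) = 1 + 4 * s * (L x + s - 1) / (s + 3 * (L x + s - 1)) := by
  have h0 : L x < 1 := hlt x hx1
  have h2 : 1 < L (x + α) := by
    have := h1 (x + α - 1)
    rw [show x + α - 1 + 1 = x + α by ring] at this
    have := hpos (x + α - 1) (by linarith)
    linarith
  have h3 : 1 - s ≤ L x := by
    by_contra hcon
    push Not at hcon
    -- then `gfun s (L x) ≤ 1`
    have hmono := (gfun_strictMono hs hs1).monotone hcon.le
    have : gfun s (1 - s) = 1 := by
      unfold gfun lift
      rw [show 1 - s + s = (1 : ℝ) by ring]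
      simp [ph_zero hs]
    rw [this, ← ha] at hmono
    linarith
  refine ⟨h3, h0, ?_⟩
  rw [ha]
  unfold gfun lift
  have hfl : ⌊L x + s⌋ = 1 := by
    rw [Int.floor_eq_iff]; constructor <;> push_cast <;> linarith
  have hfr : Int.fract (L x + s) = L x + s - 1 := by
    rw [Int.fract, hfl]; simp
  rw [hfl, hfr]
  unfold ph
  rw [if_pos (by linarith)]
  simp

lemma vfun_pos (hα0 : 0 < α) (hs : 0 < s) (hs1 : s < 1)
    (h1 : ∀ x, L (x + 1) = L x + 1)
    (ha : ∀ x, L (x + α) = gfun s (L x)) (hpos : ∀ x, 0 < x → 0 < L x)
    (hlt : ∀ x, x < 1 → L x < 1) (x : ℝ) : 1 / 2 ≤ vfun α s L x ∧ vfun α s L x ≤ 2 := by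
  unfold vfun
  split_ifs with h
  · obtain ⟨h3, h4, -⟩ := L_high hα0 hs hs1 h1 ha hpos hlt h.1 h.2
    constructor
    · rw [div_le_div_iff₀ (by norm_num) (by positivity)]; nlinarith
    · rw [div_le_iff₀ (by positivity)]; nlinarith
  · constructor <;> norm_num

lemma vfun_measurable (hL : Measurable L) : Measurable (vfun α s L) := by
  unfold vfun
  refine Measurable.ite ?_ ?_ measurable_const
  · exact (measurableSet_lt measurable_const measurable_id).inter
      (measurableSet_lt measurable_id measurable_const)
  · fun_prop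

lemma integral_log_v (hα0 : 0 < α) (hα1 : α < 1) (hs : 0 < s) (hs1 : s < 1)
    (hL : StrictMono L) (h1 : ∀ x, L (x + 1) = L x + 1)
    (ha : ∀ x, L (x + α) = gfun s (L x)) (hpos : ∀ x, 0 < x → 0 < L x)
    (hlt : ∀ x, x < 1 → L x < 1) :
    ∫ x in (0 : ℝ)..1, Real.log (vfun α s L x) = 0 := by
  have hLm : Measurable L := hL.monotone.measurable
  -- the functions `f_ε`
  set f : ℝ → ℝ → ℝ := fun ε x => Real.log (L (x + ε) - L x) with hf
  have hfm : ∀ ε, Measurable (f ε) := fun ε =>
    ((hLm.comp (measurable_id.add_const ε)).sub hLm).log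
  have hfper : ∀ ε, Function.Periodic (f ε) 1 := fun ε x => by
    simp only [hf]
    rw [show x + 1 + ε = x + ε + 1 by ring, h1, h1]
    congr 1; ring
  have hfb : ∀ ε, 0 < ε → ∀ x, |f ε (x + α) - f ε x| ≤ Real.log 4 := by
    intro ε hε x
    simp only [hf]
    have hp : 0 < L (x + ε) - L x := by
      have := hL (show x < x + ε by linarith); linarith
    have hb := gfun_bilip hs hs1 (hL (show x < x + ε by linarith)).le
    rw [← ha, ← ha] at hb
    rw [show x + ε + α = x + α + ε by ring] at hb
    have hp2 : 0 < L (x + α + ε) - L (x + α) := by linarith [hb.1]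
    have hl1 : Real.log (L (x + α + ε) - L (x + α)) ≤ Real.log 4 + Real.log (L (x + ε) - L x) := by
      rw [← Real.log_mul (by norm_num) hp.ne']
      exact Real.log_le_log hp2 hb.2
    have hl2 : Real.log (L (x + ε) - L x) ≤ Real.log 4 + Real.log (L (x + α + ε) - L (x + α)) := by
      rw [← Real.log_mul (by norm_num) hp2.ne']
      exact Real.log_le_log hp (by linarith [hb.1])
    rw [abs_le]
    constructor <;> linarith
  have hzero : ∀ ε, 0 < ε → ∫ x in (0 : ℝ)..1, (f ε (x + α) - f ε x) = 0 := fun ε hε =>
    integral_coboundary_eq_zero (hfm ε) (hfper ε) (hfb ε hε)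
  set e : ℕ → ℝ := fun n => 1 / ((n : ℝ) + 1) with he
  have hepos : ∀ n, 0 < e n := fun n => Nat.one_div_pos_of_nat
  have helim : Tendsto e atTop (𝓝 0) := tendsto_one_div_add_atTop_nhds_zero_nat
  have hlim : Tendsto (fun n : ℕ => ∫ x in (0 : ℝ)..1, (f (e n) (x + α) - f (e n) x)) atTop
      (𝓝 (∫ x in (0 : ℝ)..1, (-2 * Real.log (vfun α s L x)))) := by
    refine intervalIntegral.tendsto_integral_filter_of_dominated_convergence
      (fun _ => Real.log 4)
      (Eventually.of_forall fun n => ?_) (Eventually.of_forall fun n => ?_)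
      intervalIntegrable_const ?_
    · exact (((hfm _).comp (measurable_id.add_const α)).sub (hfm _)).aestronglyMeasurable
    · refine Eventually.of_forall fun x _ => ?_
      rw [Real.norm_eq_abs]
      exact hfb _ (hepos n) x
    · have hc1 : ∀ᵐ x ∂(volume : Measure ℝ), ContinuousAt L x := by
        have := hL.monotone.countable_not_continuousAt
        exact this.ae_notMem volume |>.mono fun x hx => by simpa using hx
      have hc2 : ∀ᵐ x ∂(volume : Measure ℝ), x ≠ 1 - α := by
        simp [ae_iff]
      have hc3 : ∀ᵐ x ∂(volume : Measure ℝ), x ≠ 1 := by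
        simp [ae_iff]
      filter_upwards [hc1, hc2, hc3] with x hx1 hx2 hx3 hxI
      rw [uIoc_of_le zero_le_one] at hxI
      have hx0 : 0 < x := hxI.1
      have hx1' : x < 1 := lt_of_le_of_ne hxI.2 hx3
      have hxe : Tendsto (fun n => x + e n) atTop (𝓝 x) := by
        simpa using tendsto_const_nhds.add helim
      rcases lt_or_gt_of_ne hx2 with hlow | hhigh
      · -- low part: translation
        have hv : vfun α s L x = 1 := by
          unfold vfun; rw [if_neg (by intro h; linarith [h.1])]
        rw [hv, Real.log_one, mul_zero]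
        refine tendsto_const_nhds.congr' ?_
        filter_upwards [hxe.eventually (gt_mem_nhds hlow)] with n hn
        have h2 := (L_low hα0 hs hs1 ha hpos hlt hx0 hlow).2
        have h3 := (L_low hα0 hs hs1 ha hpos hlt (by linarith [hepos n]) hn).2
        simp only [hf]
        rw [show x + α + e n = x + e n + α by ring, h2, h3]
        rw [show L (x + e n) + s - (L x + s) = L (x + e n) - L x by ring]
        ring
      · -- high part: Moebius
        have hcont : Tendsto (fun n => L (x + e n)) atTop (𝓝 (L x)) := hx1.tendsto.comp hxe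
        obtain ⟨hA, hB, hC⟩ := L_high hα0 hs hs1 h1 ha hpos hlt hhigh hx1'
        have hev : Tendsto (fun n => -(Real.log ((s + 3 * (L x + s - 1)) / (2 * s)) +
            Real.log ((s + 3 * (L (x + e n) + s - 1)) / (2 * s)))) atTop
            (𝓝 (-2 * Real.log (vfun α s L x))) := by
          have hv : vfun α s L x = (s + 3 * (L x + s - 1)) / (2 * s) := by
            unfold vfun; rw [if_pos ⟨hhigh, hx1'⟩]
          rw [hv]
          have hne : (s + 3 * (L x + s - 1)) / (2 * s) ≠ 0 := by
            apply ne_of_gt; apply div_pos <;> linarith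
          have : Tendsto (fun n => Real.log ((s + 3 * (L (x + e n) + s - 1)) / (2 * s))) atTop
              (𝓝 (Real.log ((s + 3 * (L x + s - 1)) / (2 * s)))) := by
            apply Tendsto.log _ hne
            apply Tendsto.div_const
            apply Tendsto.const_add
            apply Tendsto.const_mul
            exact (hcont.add_const s).sub_const 1
          have h5 := (tendsto_const_nhds (x := Real.log ((s + 3 * (L x + s - 1)) / (2 * s)))).add this
          have h6 := h5.neg
          convert h6 using 2
          ring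
        refine hev.congr' ?_
        filter_upwards [hxe.eventually (gt_mem_nhds hx1')] with n hn
        have hn0 : 1 - α < x + e n := by linarith [hepos n]
        obtain ⟨hA', hB', hC'⟩ := L_high hα0 hs hs1 h1 ha hpos hlt hn0 hn
        simp only [hf]
        rw [show x + α + e n = x + e n + α by ring, hC, hC']
        set w := L x + s - 1 with hw
        set w' := L (x + e n) + s - 1 with hw'
        have hw0 : 0 ≤ w := by linarith
        have hw0' : 0 ≤ w' := by linarith
        have hd : L (x + e n) - L x = w' - w := by rw [hw, hw']; ring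
        have hdpos : 0 < w' - w := by
          rw [← hd]; have := hL (show x < x + e n by linarith [hepos n]); linarith
        have hp1 : 0 < s + 3 * w := by linarith
        have hp2 : 0 < s + 3 * w' := by linarith
        have hkey : 1 + 4 * s * w' / (s + 3 * w') - (1 + 4 * s * w / (s + 3 * w)) =
            (w' - w) / (((s + 3 * w) / (2 * s)) * ((s + 3 * w') / (2 * s))) := by
          field_simp; ring
        rw [hkey, hd, Real.log_div hdpos.ne' (by positivity),
          Real.log_mul (by positivity) (by positivity)]
        ring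
  have h0 : ∫ x in (0 : ℝ)..1, (-2 * Real.log (vfun α s L x)) = 0 := by
    refine tendsto_nhds_unique hlim ?_
    simp only [fun n => hzero (e n) (hepos n)]
    exact tendsto_const_nhds
  rw [intervalIntegral.integral_const_mul] at h0
  linarith

end Pool.Agent.MP_a48a54_an
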