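import Mathlib
import Pool.Agent.MP_a48a54_an.Defs
import Pool.Agent.MP_a48a54_an.Integral
import Pool.Agent.MP_a48a54_an.Zariski
import Pool.Agent.MP_a48a54_an.Rotation

/-!
Over every irrational rotation (exchange of two intervals) there is a non-elementary cocycle of
parabolic type.
-/

open MeasureTheory Set Function Matrix
open scoped MatrixGroups

namespace Pool.Agent.MP_a48a54_an

/-- the unipotent matrix used on the first interval -/
noncomputable def Am (s : ℝ) : SL(2, ℝ) :=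
  ⟨!![1 - s, -s; s, 1 + s], by rw [Matrix.det_fin_two_of]; ring⟩

/-- the matrix used on the second interval -/
noncomputable def Bm (s : ℝ) (hs : 0 < s) : SL(2, ℝ) :=
  ⟨!![(1 - 4 * (1 - s) ^ 2) / (2 * s), 2 * (1 - s); -(2 * (1 - s)), 2 * s], by
    rw [Matrix.det_fin_two_of]; field_simp; ring⟩

lemma mt_Am (s : ℝ) : mt (Am s) = !![1 - s, -s; s, 1 + s] := rfl
lemma mt_Bm (s : ℝ) (hs : 0 < s) : mt (Bm s hs) =
    !![(1 - 4 * (1 - s) ^ 2) / (2 * s), 2 * (1 - s); -(2 * (1 - s)), 2 * s] := rfl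

lemma Um_pow (x : ℝ) (n : ℕ) : (Um x) ^ n = Um (n * x) := by
  induction n with
  | zero =>
    apply mt_injective
    rw [pow_zero, mt_one, mt_Um]
    ext i j; fin_cases i <;> fin_cases j <;> simp
  | succ n ih =>
    apply mt_injective
    rw [pow_succ, ih, mt_mul, mt_Um, mt_Um, mt_Um]
    push_cast
    ext i j; fin_cases i <;> fin_cases j <;> simp [Matrix.mul_apply, Fin.sum_univ_two]
    ring

lemma Lm_pow (x : ℝ) (n : ℕ) : (Lm x) ^ n = Lm (n * x) := by
  induction n with
  | zero =>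
    apply mt_injective
    rw [pow_zero, mt_one, mt_Lm]
    ext i j; fin_cases i <;> fin_cases j <;> simp
  | succ n ih =>
    apply mt_injective
    rw [pow_succ, ih, mt_mul, mt_Lm, mt_Lm, mt_Lm]
    push_cast
    ext i j; fin_cases i <;> fin_cases j <;> simp [Matrix.mul_apply, Fin.sum_univ_two]
    ring

noncomputable def hm (s : ℝ) : SL(2, ℝ) :=
  ⟨!![-1, 4 * s / 3 - 1; 1, -(4 * s / 3)], by rw [Matrix.det_fin_two_of]; ring⟩

lemma mt_hm (s : ℝ) : mt (hm s) = !![-1, 4 * s / 3 - 1; 1, -(4 * s / 3)] := rfl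

lemma hm_Um (s : ℝ) : hm s * Um (-s) * (hm s)⁻¹ = Am s := by
  rw [mul_inv_eq_iff_eq_mul]
  apply mt_injective
  rw [mt_mul, mt_mul, mt_hm, mt_Um, mt_Am]
  ext i j; fin_cases i <;> fin_cases j <;> simp [Matrix.mul_apply, Fin.sum_univ_two] <;> ring

lemma hm_Lm (s : ℝ) (hs : 0 < s) :
    hm s * Lm (9 / (4 * s)) * (hm s)⁻¹ = Bm s hs * Am s * (Bm s hs)⁻¹ := by
  rw [mul_inv_eq_iff_eq_mul, mul_assoc (Bm s hs * Am s)]
  apply mt_injective
  rw [mt_mul, mt_mul, mt_mul, mt_mul, mt_inv, mt_hm, mt_Lm, mt_Am, mt_Bm]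
  ext i j
  fin_cases i <;> fin_cases j <;> simp [Matrix.mul_apply, Fin.sum_univ_two] <;> field_simp <;> ring

/-- the two matrices of the cocycle -/
noncomputable def Mm (s : ℝ) (hs : 0 < s) (j : ℕ) : SL(2, ℝ) := if j = 0 then Am s else Bm s hs

lemma nonElementary_Mm (s : ℝ) (hs : 0 < s) : NonElementary 2 (Mm s hs) := by
  have hA : Am s ∈ Subgroup.closure {A | ∃ j < 2, A = Mm s hs j} :=
    Subgroup.subset_closure ⟨0, by norm_num, by simp [Mm]⟩
  have hB : Bm s hs ∈ Subgroup.closure {A | ∃ j < 2, A = Mm s hs j} :=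
    Subgroup.subset_closure ⟨1, by norm_num, by simp [Mm]⟩
  refine zariskiDense_of_unipotents (h := hm s) (x := -s) (y := 9 / (4 * s)) (by linarith)
    (by positivity) (fun n => ?_) (fun n => ?_)
  · rw [← Um_pow, ← conj_pow, hm_Um]
    exact Subgroup.pow_mem _ hA n
  · rw [← Lm_pow, ← conj_pow, hm_Lm s hs]
    exact Subgroup.pow_mem _ (Subgroup.mul_mem _ (Subgroup.mul_mem _ hB hA)
      (Subgroup.inv_mem _ hB)) n

/-- the cocycle on the line -/
noncomputable def rhom (α s : ℝ) (hs : 0 < s) (x : ℝ) : SL(2, ℝ) :=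
  if x < 1 - α then Am s else Bm s hs

/-- the conjugacy -/
noncomputable def conjB (L : ℝ → ℝ) (x : ℝ) : SL(2, ℝ) :=
  ⟨!![1, 1; -L x, 1 - L x], by rw [Matrix.det_fin_two_of]; ring⟩

lemma mt_conjB (L : ℝ → ℝ) (x : ℝ) : mt (conjB L x) = !![1, 1; -L x, 1 - L x] := rfl

instance : IsProbabilityMeasure leb := ⟨by simp [leb]⟩

lemma integral_leb (f : ℝ → ℝ) : ∫ x, f x ∂leb = ∫ x in (0 : ℝ)..1, f x := by
  rw [intervalIntegral.integral_of_le zero_le_one]
  unfold leb
  rw [Measure.restrict_congr_set Ico_ae_eq_Ioc]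

lemma parabolic_type {α s : ℝ} {L : ℝ → ℝ} (hα0 : 0 < α) (hα1 : α < 1) (hs : 0 < s) (hs1 : s < 1)
    (hL : StrictMono L) (h1 : ∀ x, L (x + 1) = L x + 1)
    (ha : ∀ x, L (x + α) = gfun s (L x)) (hpos : ∀ x, 0 < x → 0 < L x)
    (hlt : ∀ x, x < 1 → L x < 1) :
    IsParabolicType (rot α) (rhom α s hs) := by
  have hLm : Measurable L := hL.monotone.measurable
  have hv := vfun_pos hα0 hs hs1 h1 ha hpos hlt
  refine ⟨conjB L, vfun α s L, fun x => if 1 - α < x ∧ x < 1 then 3 / (2 * s) else 0,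
    ?_, vfun_measurable hLm, ?_, fun x => by linarith [(hv x).1], ?_, ?_, ?_⟩
  · intro i j
    fin_cases i <;> fin_cases j
    · exact measurable_const
    · exact measurable_const
    · exact hLm.neg
    · exact measurable_const.sub hLm
  · refine Measurable.ite ?_ measurable_const measurable_const
    exact (measurableSet_lt measurable_const measurable_id).inter
      (measurableSet_lt measurable_id measurable_const)
  · refine (integrable_const (Real.log 2)).mono' (vfun_measurable hLm).log.aestronglyMeasurable ?_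
    refine Filter.Eventually.of_forall fun x => ?_
    rw [Real.norm_eq_abs, abs_le]
    constructor
    · rw [← Real.log_inv]
      exact Real.log_le_log (by norm_num) (by linarith [(hv x).1])
    · exact Real.log_le_log (by linarith [(hv x).1]) (hv x).2
  · rw [integral_leb]
    exact integral_log_v hα0 hα1 hs hs1 hL h1 ha hpos hlt
  · have h2 : ∀ᵐ x ∂leb, x ≠ 0 := by
      refine ae_restrict_of_ae ?_
      simp [ae_iff]
    have h3 : ∀ᵐ x ∂leb, x ≠ 1 - α := by
      refine ae_restrict_of_ae ?_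
      simp [ae_iff]
    have h4 : ∀ᵐ x ∂leb, x ∈ Ico (0 : ℝ) 1 := ae_restrict_mem measurableSet_Ico
    filter_upwards [h2, h3, h4] with x hx0 hxα hxI
    have hxpos : 0 < x := lt_of_le_of_ne hxI.1 (Ne.symm hx0)
    have hvx : 0 < vfun α s L x := by linarith [(hv x).1]
    suffices H : mt (conjB L (rot α x) * rhom α s hs x) =
        !![vfun α s L x, if 1 - α < x ∧ x < 1 then 3 / (2 * s) else 0; 0, (vfun α s L x)⁻¹] *
          mt (conjB L x) by
      show mt (conjB L (rot α x) * rhom α s hs x * (conjB L x)⁻¹) = _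
      rw [mt_mul, H, mul_assoc, mt_mul_inv, mul_one]
    rcases lt_or_gt_of_ne hxα with hlow | hhigh
    · have e1 : rot α x = x + α := by unfold rot; rw [if_pos hlow]
      have e2 : rhom α s hs x = Am s := by unfold rhom; rw [if_pos hlow]
      have e3 : vfun α s L x = 1 := by
        unfold vfun; rw [if_neg (by intro h; linarith [h.1])]
      have e4 : ¬ (1 - α < x ∧ x < 1) := by intro h; linarith [h.1]
      have e5 := (L_low hα0 hs hs1 ha hpos hlt hxpos hlow).2
      rw [e1, e2, e3, if_neg e4, mt_mul, mt_conjB, mt_conjB, mt_Am, e5]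
      ext i j
      fin_cases i <;> fin_cases j <;> simp [Matrix.mul_apply, Fin.sum_univ_two] <;> ring
    · have hn : ¬ x < 1 - α := not_lt.mpr hhigh.le
      have e1 : rot α x = x - (1 - α) := by unfold rot; rw [if_neg hn]
      have e2 : rhom α s hs x = Bm s hs := by unfold rhom; rw [if_neg hn]
      have e3 : vfun α s L x = (s + 3 * (L x + s - 1)) / (2 * s) := by
        unfold vfun; rw [if_pos ⟨hhigh, hxI.2⟩]
      obtain ⟨h5, h6, h7⟩ := L_high hα0 hs hs1 h1 ha hpos hlt hhigh hxI.2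
      have h8 : L (x - (1 - α)) = 4 * s * (L x + s - 1) / (s + 3 * (L x + s - 1)) := by
        have := h1 (x - (1 - α))
        rw [show x - (1 - α) + 1 = x + α by ring, h7] at this
        linarith
      have hp : s + 3 * (L x + s - 1) ≠ 0 := by
        have : 0 ≤ L x + s - 1 := by linarith
        positivity
      rw [e1, e2, if_pos ⟨hhigh, hxI.2⟩, mt_mul, mt_conjB, mt_conjB, mt_Bm, h8, e3]
      clear h8 e3 h7 h5 h6
      generalize L x = l at hp ⊢
      obtain ⟨D, rfl⟩ : ∃ D, l = (D - s) / 3 + 1 - s := ⟨3 * (l + s - 1) + s, by ring⟩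
      rw [show (D - s) / 3 + 1 - s + s - 1 = (D - s) / 3 by ring] at hp ⊢
      rw [show s + 3 * ((D - s) / 3) = D by ring] at hp ⊢
      ext i j
      fin_cases i <;> fin_cases j <;> simp [Matrix.mul_apply, Fin.sum_univ_two] <;>
        field_simp <;> ring

end Pool.Agent.MP_a48a54_an
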